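import Mathlib

/-!
Counting lemmas for the slopes in the tensor case.
-/

open Module

namespace PR

section comb

/-- A symmetric family of integers with prescribed multiplicities. -/
theorem exists_family14 {d : ℕ} (C : ℕ) (m : ℤ → ℕ) (h0 : ∀ z, m z ≠ 0 → |z| ≤ C)
    (hs : ∑ z ∈ Finset.Icc (-(C : ℤ)) C, m z = d) (hm : ∀ z, m (-z) = m z) :
    ∃ β : Fin d → ℤ, (∀ z, (Finset.univ.filter (fun t => β t = z)).card = m z) ∧
      ∃ e : Equiv.Perm (Fin d), ∀ t, β (e t) = - β t := by
  classical
  have hcard : Fintype.card (Σ z : Finset.Icc (-(C : ℤ)) C, Fin (m z)) = d := by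
    rw [Fintype.card_sigma, ← hs]
    simp only [Fintype.card_fin]
    exact Finset.sum_coe_sort (Finset.Icc (-(C : ℤ)) C) m
  let e := Fintype.equivFinOfCardEq hcard
  let neg : Finset.Icc (-(C : ℤ)) C ≃ Finset.Icc (-(C : ℤ)) C :=
    { toFun := fun z => ⟨-z.1, by have := z.2; rw [Finset.mem_Icc] at this ⊢; omega⟩
      invFun := fun z => ⟨-z.1, by have := z.2; rw [Finset.mem_Icc] at this ⊢; omega⟩
      left_inv := fun z => by simp
      right_inv := fun z => by simp }
  let E : (Σ z : Finset.Icc (-(C : ℤ)) C, Fin (m z)) ≃ (Σ z : Finset.Icc (-(C : ℤ)) C, Fin (m z)) :=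
    Equiv.sigmaCongr neg (fun z => finCongr (hm z.1).symm)
  refine ⟨fun t => (e.symm t).1.1, ?_, (e.symm.trans E).trans e, ?_⟩
  · intro z
    by_cases hz : z ∈ Finset.Icc (-(C : ℤ)) C
    · have h1 : (Finset.univ.filter (fun t => (e.symm t).1.1 = z)).card =
          (Finset.univ.filter (fun x : (Σ z : Finset.Icc (-(C : ℤ)) C, Fin (m z)) =>
            x.1.1 = z)).card := by
        refine Finset.card_bij (fun t _ => e.symm t) ?_ ?_ ?_
        · intro t ht
          rw [Finset.mem_filter] at ht ⊢
          exact ⟨Finset.mem_univ _, ht.2⟩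
        · intro t _ t' _ h
          exact e.symm.injective h
        · intro x hx
          rw [Finset.mem_filter] at hx
          refine ⟨e x, ?_, by simp⟩
          rw [Finset.mem_filter]
          exact ⟨Finset.mem_univ _, by rw [Equiv.symm_apply_apply]; exact hx.2⟩
      have h2 : (Finset.univ.filter (fun x : (Σ z : Finset.Icc (-(C : ℤ)) C, Fin (m z)) =>
            x.1.1 = z)) = Finset.sigma {⟨z, hz⟩} (fun _ => Finset.univ) := by
        ext x
        rw [Finset.mem_filter, Finset.mem_sigma, Finset.mem_singleton, Subtype.ext_iff]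
        simp
      rw [h1, h2, Finset.card_sigma, Finset.sum_singleton, Finset.card_univ, Fintype.card_fin]
    · have h1 : m z = 0 := by
        by_contra h
        apply hz
        have := h0 z h
        rw [abs_le] at this
        rw [Finset.mem_Icc]
        exact this
      rw [h1, Finset.card_eq_zero, Finset.filter_eq_empty_iff]
      intro t _ ht
      apply hz
      rw [← ht]
      exact (e.symm t).1.2
  · intro t
    simp only [Equiv.trans_apply, Equiv.symm_apply_apply]
    rfl

/-- The number of the maps with sum `z`. -/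
def cnt14 {d : ℕ} (β : Fin d → ℤ) (n : ℕ) (z : ℤ) : ℕ :=
  (Finset.univ.filter (fun φ : Fin n → Fin d => ∑ i, β (φ i) = z)).card

theorem cnt14_succ {d : ℕ} (β : Fin d → ℤ) (n : ℕ) (z : ℤ) :
    cnt14 β (n + 1) z = ∑ t, cnt14 β n (z - β t) := by
  classical
  unfold cnt14
  rw [Finset.card_eq_sum_card_fiberwise (f := fun φ : Fin (n + 1) → Fin d => φ 0)
    (t := Finset.univ) (fun _ _ => Finset.mem_coe.mpr (Finset.mem_univ _))]
  apply Finset.sum_congr rfl
  intro t _
  refine Finset.card_nbij' (fun φ => Fin.tail φ) (fun ψ => Fin.cons t ψ) ?_ ?_ ?_ ?_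
  · intro φ hφ
    simp only [Finset.coe_filter, Finset.mem_filter, Finset.mem_univ, true_and,
      Set.mem_setOf_eq] at hφ ⊢
    rw [Fin.sum_univ_succ, hφ.2] at hφ
    have := hφ.1
    have e : ∀ i, Fin.tail φ i = φ i.succ := fun i => rfl
    simp only [e]
    omega
  · intro ψ hψ
    simp only [Finset.coe_filter, Finset.mem_filter, Finset.mem_univ, true_and,
      Set.mem_setOf_eq] at hψ ⊢
    rw [Fin.sum_univ_succ]
    simp only [Fin.cons_zero, Fin.cons_succ]
    constructor
    · omega
    · trivial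
  · intro φ hφ
    simp only [Finset.coe_filter, Finset.mem_filter, Finset.mem_univ, true_and,
      Set.mem_setOf_eq] at hφ
    simp only
    rw [← hφ.2]
    exact Fin.cons_self_tail φ
  · intro ψ _
    exact Fin.tail_cons _ _

theorem cnt14_zero {d : ℕ} (β : Fin d → ℤ) (z : ℤ) :
    cnt14 β 0 z = if z = 0 then 1 else 0 := by
  classical
  unfold cnt14
  split_ifs with h
  · rw [h]
    simp
  · rw [Finset.card_eq_zero, Finset.filter_eq_empty_iff]
    intro φ _ h1
    apply h
    rw [← h1]
    simp

theorem sum_family14 {d : ℕ} {C : ℕ} {m : ℤ → ℕ} (h0 : ∀ z, m z ≠ 0 → |z| ≤ C)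
    {β : Fin d → ℤ} (hβ : ∀ z, (Finset.univ.filter (fun t => β t = z)).card = m z)
    (F : ℤ → ℕ) : ∑ t, F (β t) = ∑ x ∈ Finset.Icc (-(C : ℤ)) C, m x * F x := by
  classical
  rw [← Finset.sum_fiberwise_of_maps_to (g := β) (t := Finset.Icc (-(C : ℤ)) C)]
  · apply Finset.sum_congr rfl
    intro x _
    rw [← hβ x, Finset.sum_congr rfl (g := fun _ => F x), Finset.sum_const, smul_eq_mul]
    intro t ht
    rw [Finset.mem_filter] at ht
    rw [ht.2]
  · intro t _
    rw [Finset.mem_Icc, ← abs_le]
    apply h0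
    rw [← hβ]
    intro h
    rw [Finset.card_eq_zero, Finset.filter_eq_empty_iff] at h
    exact h (Finset.mem_univ t) rfl

/-- The induction step. -/
theorem step14 {d D n : ℕ} {C : ℕ} {m : ℤ → ℕ} (h0 : ∀ z, m z ≠ 0 → |z| ≤ C)
    {β : Fin d → ℤ} (hβ : ∀ z, (Finset.univ.filter (fun t => β t = z)).card = m z)
    (f g : Fin D → ℤ) (hf : ∀ j, |f j| ≤ C)
    (h1 : ∀ y x, (Finset.univ.filter (fun j => g j = y ∧ f j = x)).card * d =
      (Finset.univ.filter (fun j => g j = y)).card * m x)
    (h2 : ∀ y, (Finset.univ.filter (fun j => g j = y)).card * d ^ n = D * cnt14 β n y) (z : ℤ) :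
    (Finset.univ.filter (fun j => f j + g j = z)).card * d ^ (n + 1) =
      D * cnt14 β (n + 1) z := by
  classical
  rw [cnt14_succ, sum_family14 h0 hβ (fun x => cnt14 β n (z - x)),
    Finset.card_eq_sum_card_fiberwise (f := f) (t := Finset.Icc (-(C : ℤ)) C), Finset.sum_mul,
    Finset.mul_sum]
  · apply Finset.sum_congr rfl
    intro x _
    have e : ((Finset.univ.filter (fun j => f j + g j = z)).filter (fun j => f j = x)) =
        (Finset.univ.filter (fun j => g j = z - x ∧ f j = x)) := by
      ext j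
      simp only [Finset.mem_filter, Finset.mem_univ, true_and]
      constructor
      · rintro ⟨a, b⟩
        exact ⟨by omega, b⟩
      · rintro ⟨a, b⟩
        exact ⟨by omega, b⟩
    rw [e]
    calc (Finset.univ.filter (fun j => g j = z - x ∧ f j = x)).card * d ^ (n + 1)
        = ((Finset.univ.filter (fun j => g j = z - x ∧ f j = x)).card * d) * d ^ n := by
          rw [pow_succ]; ring
      _ = m x * ((Finset.univ.filter (fun j => g j = z - x)).card * d ^ n) := by
          rw [h1]; ring
      _ = _ := by rw [h2]; ring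
  · intro j _
    rw [Finset.coe_Icc, Set.mem_Icc, ← abs_le]
    exact hf j

end comb

end PR
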