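import Pool.Agent.Helper93.SR.Dec

/-!
Common eigenbases of commuting involutions.
-/

set_option linter.unusedSectionVars false

open Module MTP

namespace PR

variable {K : Type*} [Field K] {V : Type*} [AddCommGroup V] [Module K V] [FiniteDimensional K V]

/-- Common eigenvectors of commuting involutions span. -/
theorem span_top14 [CharZero K] {n : ℕ} (s : Fin n → Module.End K V) (hss : ∀ i, s i * s i = 1)
    (hc : ∀ i j, s i * s j = s j * s i) (A : Finset (Fin n)) :
    (⊤ : Submodule K V) ≤ Submodule.span K {v : V | ∀ i ∈ A, s i v = v ∨ s i v = -v} := by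
  classical
  induction A using Finset.induction_on with
  | empty =>
    intro v _
    apply Submodule.subset_span
    intro i hi
    simp at hi
  | insert i A _ ih =>
    refine ih.trans ?_
    rw [Submodule.span_le]
    intro v hv
    have hsv : s i (s i v) = v := by
      have := congrArg (fun z : Module.End K V => z v) (hss i)
      exact this
    have hcv : ∀ j, s j (s i v) = s i (s j v) := fun j =>
      congrArg (fun z : Module.End K V => z v) (hc j i)
    have h1 : v + s i v ∈ {v : V | ∀ j ∈ insert i A, s j v = v ∨ s j v = -v} := by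
      intro j hj
      rw [Finset.mem_insert] at hj
      rcases hj with rfl | hj
      · left
        rw [map_add, hsv, add_comm]
      · rcases hv j hj with h | h
        · left; rw [map_add, hcv, h]
        · right; rw [map_add, hcv, h, map_neg]; abel
    have h2 : v - s i v ∈ {v : V | ∀ j ∈ insert i A, s j v = v ∨ s j v = -v} := by
      intro j hj
      rw [Finset.mem_insert] at hj
      rcases hj with rfl | hj
      · right
        rw [map_sub, hsv, neg_sub]
      · rcases hv j hj with h | h
        · left; rw [map_sub, hcv, h]
        · right; rw [map_sub, hcv, h, map_neg]; abel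
    have e : v = (2 : K)⁻¹ • ((v + s i v) + (v - s i v)) := by
      have : (v + s i v) + (v - s i v) = (2 : K) • v := by rw [two_smul]; abel
      rw [this, smul_smul, inv_mul_cancel₀ two_ne_zero, one_smul]
    rw [SetLike.mem_coe, e]
    exact Submodule.smul_mem _ _ (Submodule.add_mem _ (Submodule.subset_span h1)
      (Submodule.subset_span h2))

/-- Common eigenbasis of commuting involutions. -/
theorem exists_basis14 [CharZero K] {n : ℕ} (s : Fin n → Module.End K V)
    (hss : ∀ i, s i * s i = 1) (hc : ∀ i j, s i * s j = s j * s i) :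
    ∃ (b : Basis (Fin (finrank K V)) K V) (χ : Fin n → Fin (finrank K V) → ℤ),
      (∀ i j, χ i j = 1 ∨ χ i j = -1) ∧ ∀ i j, s i (b j) = (χ i j : K) • b j := by
  classical
  have hspan := span_top14 s hss hc Finset.univ
  let b0 := Module.Basis.ofSpan hspan
  have : Finite ((linearIndepOn_empty K (id : V → V)).extend
      (Set.empty_subset {v : V | ∀ i ∈ Finset.univ, s i v = v ∨ s i v = -v})) :=
    Module.Finite.finite_basis b0
  have hcard := Module.finrank_eq_nat_card_basis b0
  let e := Finite.equivFinOfCardEq hcard.symm
  let b := b0.reindex e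
  have hb : ∀ j i, s i (b j) = b j ∨ s i (b j) = - b j := by
    intro j i
    have h := Module.Basis.ofSpan_subset hspan (Set.mem_range_self (e.symm j)) i
      (Finset.mem_univ i)
    simpa [b, b0, Module.Basis.reindex_apply] using h
  refine ⟨b, fun i j => if s i (b j) = b j then 1 else -1, ?_, ?_⟩
  · intro i j
    simp only
    split_ifs
    · exact Or.inl rfl
    · exact Or.inr rfl
  · intro i j
    simp only
    split_ifs with h
    · rw [Int.cast_one, one_smul]; exact h
    · rw [Int.cast_neg, Int.cast_one, neg_smul, one_smul]
      exact (hb j i).resolve_left h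

section diag
variable {ι : Type*} [Fintype ι] (b : Basis ι K V)

theorem finrank_span14 (J : Finset ι) :
    finrank K (Submodule.span K (b '' (J : Set ι))) = J.card := by
  classical
  have h1 : b '' (J : Set ι) = Set.range (fun j : J => b j) := by
    ext v
    simp
  rw [h1]
  have h2 := finrank_span_eq_card (b.linearIndependent.comp (fun j : J => (j : ι))
    Subtype.val_injective)
  rw [Fintype.card_coe] at h2
  exact h2

theorem repr14 {f : Module.End K V} {l : ι → K} (hf : ∀ j, f (b j) = l j • b j) (v : V) (j : ι) :
    b.repr (f v) j = l j * b.repr v j := by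
  classical
  have h : (Finsupp.lapply j ∘ₗ (b.repr : V →ₗ[K] ι →₀ K)) ∘ₗ f =
      l j • (Finsupp.lapply j ∘ₗ (b.repr : V →ₗ[K] ι →₀ K)) := by
    apply b.ext
    intro i
    simp only [LinearMap.comp_apply, LinearMap.smul_apply, LinearEquiv.coe_coe, hf, map_smul,
      Basis.repr_self, Finsupp.lapply_apply, smul_eq_mul]
    by_cases hij : i = j
    · subst hij; rfl
    · rw [Finsupp.single_eq_of_ne (Ne.symm hij)]; simp
  have := LinearMap.congr_fun h v
  simpa using this

theorem mem_span14 {J : Finset ι} {v : V} :
    v ∈ Submodule.span K (b '' (J : Set ι)) ↔ ∀ j, j ∉ J → b.repr v j = 0 := by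
  rw [Module.Basis.mem_span_image]
  constructor
  · intro h j hj
    by_contra h0
    exact hj (h (Finsupp.mem_support_iff.mpr h0))
  · intro h j hj
    by_contra h0
    exact (Finsupp.mem_support_iff.mp hj) (h j h0)

/-- The image of a coordinate subspace under a diagonal operator. -/
theorem map14 [DecidableEq K] {f : Module.End K V} {l : ι → K} (hf : ∀ j, f (b j) = l j • b j)
    (J : Finset ι) : (Submodule.span K (b '' (J : Set ι))).map f =
      Submodule.span K (b '' ((J.filter (fun j => l j ≠ 0) : Finset ι) : Set ι)) := by
  apply le_antisymm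
  · rw [Submodule.map_span, Submodule.span_le]
    rintro _ ⟨_, ⟨j, hj, rfl⟩, rfl⟩
    rw [SetLike.mem_coe, hf]
    by_cases h : l j = 0
    · rw [h, zero_smul]; exact Submodule.zero_mem _
    · apply Submodule.smul_mem
      apply Submodule.subset_span
      exact ⟨j, by simpa using ⟨hj, h⟩, rfl⟩
  · rw [Submodule.span_le]
    rintro _ ⟨j, hj, rfl⟩
    have hj' : j ∈ J ∧ l j ≠ 0 := by simpa using hj
    refine ⟨(l j)⁻¹ • b j, ?_, ?_⟩
    · exact Submodule.smul_mem _ _ (Submodule.subset_span ⟨j, hj'.1, rfl⟩)
    · rw [map_smul, hf, smul_smul, inv_mul_cancel₀ hj'.2, one_smul]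

theorem eigen14 [DecidableEq K] {f : Module.End K V} {l : ι → K} (hf : ∀ j, f (b j) = l j • b j)
    (μ : K) : Module.End.eigenspace f μ =
      Submodule.span K (b '' ((Finset.univ.filter (fun j => l j = μ) : Finset ι) : Set ι)) := by
  classical
  ext v
  rw [mem_span14, Module.End.mem_eigenspace_iff]
  constructor
  · intro h j hj
    have h1 := repr14 b hf v j
    rw [h, map_smul, Finsupp.smul_apply, smul_eq_mul] at h1
    have h2 : l j ≠ μ := by
      intro h3
      apply hj
      simp [h3]
    have h3 : (l j - μ) * b.repr v j = 0 := by linear_combination -h1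
    exact (mul_eq_zero.mp h3).resolve_left (sub_ne_zero.mpr h2)
  · intro h
    apply b.repr.injective
    ext j
    rw [repr14 b hf, map_smul, Finsupp.smul_apply, smul_eq_mul]
    by_cases hj : l j = μ
    · rw [hj]
    · rw [h j (by simpa using hj), mul_zero, mul_zero]

theorem rk14 [DecidableEq K] {f : Module.End K V} {l : ι → K} (hf : ∀ j, f (b j) = l j • b j) :
    rk f = (Finset.univ.filter (fun j => l j ≠ 0)).card := by
  have h1 : Submodule.span K (b '' ((Finset.univ : Finset ι) : Set ι)) = ⊤ := by
    rw [Finset.coe_univ, Set.image_univ]; exact b.span_eq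
  have h2 := map14 b hf Finset.univ
  rw [h1, Submodule.map_top] at h2
  unfold rk
  rw [h2, finrank_span14]

end diag

end PR
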