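import Pool.Agent.Helper14.PT.Diag
import Pool.Agent.Helper27.PR.ShDefs

/-!
Pairs which are not full from families of diagonal conjugates of a cocharacter.
-/

set_option linter.unusedSectionVars false

open Module MTPairs MTP

namespace PR

variable {K : Type*} [Field K]

/-- A group of `N` scalar multiplications. -/
theorem exists_scalars14 (K : Type*) [Field K] [IsAlgClosed K] [CharZero K] (m : Type*)
    [Nonempty m] {N : ℕ} (hN : 0 < N) :
    ∃ Γ : Subgroup (Equiv.Perm (m → K)), Nat.card Γ = N ∧ ∀ θ ∈ Γ, ∃ ζ : K,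
      ∀ v, θ v = ζ • v := by
  have : NeZero N := ⟨hN.ne'⟩
  have : NeZero (N : K) := ⟨Nat.cast_ne_zero.mpr hN.ne'⟩
  have hinj : Function.Injective (MulAction.toPermHom Kˣ (m → K)) := by
    intro a b hab
    have h1 := congrArg (fun θ : Equiv.Perm (m → K) => θ (fun _ => 1)) hab
    obtain ⟨i⟩ := ‹Nonempty m›
    have h2 := congrFun h1 i
    have h3 : (a : K) * 1 = (b : K) * 1 := h2
    rw [mul_one, mul_one] at h3
    exact Units.ext h3
  refine ⟨(rootsOfUnity N K).map (MulAction.toPermHom Kˣ (m → K)), ?_, ?_⟩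
  · rw [Subgroup.card_map_of_injective hinj]
    exact HasEnoughRootsOfUnity.natCard_rootsOfUnity K N
  · rintro θ ⟨a, -, rfl⟩
    exact ⟨a, fun v => rfl⟩

private lemma sum_sub14 {ι A : Type*} [Fintype ι] [AddCommMonoid A] (c : ι → ℕ) {n : ℕ}
    (e : {i : ι // c i ≠ 0} ≃ Fin n) (f : ι → A) (hf : ∀ i, c i = 0 → f i = 0) :
    ∑ j, f (e.symm j).1 = ∑ i, f i := by
  classical
  rw [Equiv.sum_comp e.symm (fun i : {i : ι // c i ≠ 0} => f i.1),
    ← Finset.sum_subtype (Finset.univ.filter (fun i => c i ≠ 0)) (fun i => by simp) f]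
  apply Finset.sum_filter_of_ne
  intro i _ h h0
  exact h (hf i h0)

variable {m : Type} [Fintype m] [DecidableEq m]

/-- Slopes from a family with nonnegative coefficients. -/
theorem hasSlopes_of_family14 {Γ : Subgroup (Equiv.Perm (m → K))}
    {G : Subgroup (Matrix.GeneralLinearGroup m K)} {π : Matrix m m K} {Λ : Multiset ℚ}
    {ι : Type*} [Fintype ι] (c : ι → ℕ) (P : ι → Matrix m m K)
    (hc : ∀ i, c i ≠ 0 → MTPairs.IsConj Γ G π (P i)) (hcomm : ∀ i j, P i * P j = P j * P i)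
    (hΓ : ∀ θ ∈ Γ, ∃ g ∈ G, ∀ v : m → K,
      (∑ i, c i • P i).mulVec ((g : Matrix m m K).mulVec (θ v)) =
        (g : Matrix m m K).mulVec (θ ((∑ i, c i • P i).mulVec v)))
    (hcard : Λ.card = Fintype.card m)
    (hl : ∀ l : ℚ, finrank K (Module.End.eigenspace (∑ i, c i • P i).mulVecLin
      (((∑ i, c i : ℕ) * l : ℚ) : K)) = Λ.count l) : HasSlopes Γ G π Λ := by
  classical
  let e := Fintype.equivFin {i : ι // c i ≠ 0}
  have h1 : ∑ j, c (e.symm j).1 • P (e.symm j).1 = ∑ i, c i • P i :=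
    sum_sub14 c e (fun i => c i • P i) (fun i hi => by rw [hi, zero_smul])
  have h2 : ∑ j, c (e.symm j).1 = ∑ i, c i := sum_sub14 c e c (fun i hi => hi)
  refine ⟨Fintype.card {i : ι // c i ≠ 0}, fun j => c (e.symm j).1,
    fun j => P (e.symm j).1, ?_, ?_, ?_, hcard, ?_⟩
  · intro j
    exact ⟨Nat.pos_of_ne_zero (e.symm j).2, hc _ (e.symm j).2⟩
  · intro i j
    exact hcomm _ _
  · rw [h1]; exact hΓ
  · rw [h1, h2]; exact hl

/-- A pair which is not full from a family of diagonal conjugates. -/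
theorem bad_of_diag14 [IsAlgClosed K] [CharZero K] [Nonempty m] {J : Matrix m m K}
    {G : Subgroup (Matrix.GeneralLinearGroup m K)} {π : Matrix m m K} (h1 : IsMTPair J G)
    (h2 : IsIrr G) (h3 : IsCochar G π)
    (h4 : ∃ g : Matrix.GeneralLinearGroup m K,
      (∃ c : K, (g : Matrix m m K).transpose * J * (g : Matrix m m K) = c • J) ∧ g ∉ G)
    {N : ℕ} (hN : 0 < N) {ι : Type*} [Fintype ι] (c : ι → ℕ) (P : ι → Matrix m m K)
    (hC : 0 < ∑ i, c i)
    (hc : ∀ i, c i ≠ 0 → ∃ g ∈ G, P i * (g : Matrix m m K) = (g : Matrix m m K) * π)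
    (hcomm : ∀ i j, P i * P j = P j * P i) (lam : m → ℚ)
    (hdiag : ∑ i, c i • P i =
      Matrix.diagonal (fun p => ((((∑ i, c i : ℕ) : ℚ) * lam p : ℚ) : K))) :
    Bad K (Finset.univ.val.map lam) N := by
  classical
  obtain ⟨Γ, hΓ, hsc⟩ := exists_scalars14 K m hN
  have hcom : ∀ (A : Matrix m m K), ∀ θ ∈ Γ, ∀ v : m → K, A.mulVec (θ v) = θ (A.mulVec v) := by
    intro A θ hθ v
    obtain ⟨ζ, hζ⟩ := hsc θ hθ
    rw [hζ, hζ, Matrix.mulVec_smul]
  refine ⟨m, inferInstance, inferInstance, Γ, J, G, π, ?_, h2, h3, ?_, ?_, h4⟩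
  · refine { toIsMTPair := h1, semi := ?_, norm := ?_ }
    · intro θ hθ
      obtain ⟨ζ, hζ⟩ := hsc θ hθ
      refine ⟨RingEquiv.refl K, fun v w => ?_, fun a v => ?_⟩
      · rw [hζ, hζ, hζ, smul_add]
      · rw [hζ, hζ, smul_comm]; rfl
    · intro θ hθ g hg
      exact ⟨g, hg, fun v => hcom _ θ hθ v⟩
  · apply hasSlopes_of_family14 c P
    · intro i hi
      obtain ⟨g, hg, hgP⟩ := hc i hi
      refine ⟨1, Subgroup.one_mem _, g, hg, fun v => ?_⟩
      rw [Equiv.Perm.one_apply, Equiv.Perm.one_apply, Matrix.mulVec_mulVec, hgP,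
        Matrix.mulVec_mulVec]
    · exact hcomm
    · intro θ hθ
      refine ⟨1, Subgroup.one_mem _, fun v => ?_⟩
      rw [Units.val_one, Matrix.one_mulVec, Matrix.one_mulVec]
      exact hcom _ θ hθ v
    · rw [Multiset.card_map]
      rfl
    · intro l
      have hb : ∀ p, (∑ i, c i • P i).mulVecLin ((Pi.basisFun K m) p) =
          ((((∑ i, c i : ℕ) : ℚ) * lam p : ℚ) : K) • (Pi.basisFun K m) p := by
        intro p
        rw [Matrix.mulVecLin_apply, hdiag, Pi.basisFun_apply, Matrix.diagonal_mulVec_single,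
          mul_one]
        funext q
        by_cases hq : q = p
        · subst hq
          simp
        · simp [Pi.single_apply, hq]
      rw [eigen14 (Pi.basisFun K m) hb, finrank_span14]
      have hC' : (((∑ i, c i : ℕ) : ℚ)) ≠ 0 := by exact_mod_cast hC.ne'
      have e1 : (Finset.univ.filter (fun p => ((((∑ i, c i : ℕ) : ℚ) * lam p : ℚ) : K) =
          ((((∑ i, c i : ℕ) : ℚ) * l : ℚ) : K))) = Finset.univ.filter (fun p => l = lam p) := by
        apply Finset.filter_congr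
        intro p _
        rw [Rat.cast_inj, mul_right_inj' hC']
        exact eq_comm
      rw [e1, Multiset.count_map]
      rfl
  · refine ⟨⊥, bot_le, ?_, ?_⟩
    · rw [Subgroup.relIndex_bot_left, hΓ]
    · intro θ hθ
      rw [Subgroup.mem_bot] at hθ
      subst hθ
      exact ⟨1, Subgroup.one_mem _, fun v => by simp⟩

end PR
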