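import Pool.Agent.Helper14.PT.Comb
import Pool.Agent.Helper14.PT.Diag
import Pool.Agent.Helper27.PR.PrIso

/-!
Multiplicities of the slopes of the minimal ideals, and the induction on the decomposition.
-/

set_option linter.unusedSectionVars false
set_option linter.unusedVariables false

open Module MTP

namespace PR

variable {K : Type*} [Field K] {V : Type*} [AddCommGroup V] [Module K V] [FiniteDimensional K V]
variable {ω : LinearMap.BilinForm K V} {L I M : Submodule K (Module.End K V)}

/-- The multiplicity function of a minimal ideal. -/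
theorem QI_kappa14 [IsAlgClosed K] [CharZero K] (hL : IrrSymp ω L) (hω : ω.Nondegenerate)
    {ρ d : ℕ} {ε : K} (hρ : finrank K V = ρ * d) (h : QI ω L ρ ε I) :
    0 < ρ ∧ ∃ κ : Module.End K V → ℕ, ∀ W : Submodule K V,
      (∀ x ∈ alg I, ∀ w ∈ W, x w ∈ W) → ∃ n : ℕ, finrank K W = n * d ∧ (W = ⊤ → n = ρ) ∧
        ∀ x ∈ alg I, finrank K (W.map x) = n * κ x := by
  obtain ⟨hI, hI0, hmin, a, ha, har⟩ := h
  have P := hL.pr (fun x hx y hy => hL.orth_comm hω hI hx hy)
    (fun z hz => hL.sup_orth hω hI hz)
  obtain ⟨d', κ, hd', hκ, hW⟩ := pr_iso P ha.mem ha.ne ha.ext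
  have hρ0 : 0 < ρ := by
    rw [← har]; exact rk_pos.mpr ha.ne
  have htop : ∀ n : ℕ, finrank K (⊤ : Submodule K V) = n * d' →
      (∀ x ∈ alg I, finrank K ((⊤ : Submodule K V).map x) = n * κ x) → n = ρ := by
    intro n _ h2
    have h3 := h2 a ha.mem
    rw [hκ, mul_one, Submodule.map_top] at h3
    rw [← h3]
    exact har
  obtain ⟨n, h1, h2⟩ := hW ⊤ (fun _ _ _ _ => Submodule.mem_top)
  have h3 := htop n h1 h2
  rw [finrank_top, h3, hρ] at h1
  have h4 : d' = d := (Nat.eq_of_mul_eq_mul_left hρ0 h1).symm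
  subst h4
  refine ⟨hρ0, κ, ?_⟩
  intro W hWs
  obtain ⟨n, h1, h2⟩ := hW W hWs
  refine ⟨n, h1, ?_, h2⟩
  rintro rfl
  exact htop n h1 h2

section basis
variable {D : ℕ} (b : Basis (Fin D) K V)

/-- The multiplicities of the eigenvalues of an element of a minimal ideal. -/
theorem QI_mult14 [IsAlgClosed K] [CharZero K] (hL : IrrSymp ω L) (hω : ω.Nondegenerate)
    {ρ d : ℕ} {ε : K} (hρ : finrank K V = ρ * d) (h : QI ω L ρ ε I) {X : Module.End K V}
    (hX : X ∈ I) {f : Fin D → ℤ} (hf : ∀ j, X (b j) = (f j : K) • b j) :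
    ∃ m : ℤ → ℕ, (∀ z, (Finset.univ.filter (fun j => f j = z)).card = ρ * m z) ∧
      ∀ J : Finset (Fin D), (∀ x ∈ alg I, ∀ w ∈ Submodule.span K (b '' (J : Set (Fin D))),
        x w ∈ Submodule.span K (b '' (J : Set (Fin D)))) →
        ∀ z, (J.filter (fun j => f j = z)).card * d = J.card * m z := by
  classical
  obtain ⟨hρ0, κ, hκ⟩ := QI_kappa14 hL hω hρ h
  have hXz : ∀ z : ℤ, X - (z : K) • 1 ∈ alg I := fun z =>
    sub_mem (le_alg hX) (Subalgebra.smul_mem _ (one_mem _) _)
  have hXf : ∀ z : ℤ, ∀ j, (X - (z : K) • 1) (b j) = (((f j - z : ℤ) : K)) • b j := by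
    intro z j
    rw [LinearMap.sub_apply, hf, LinearMap.smul_apply, Module.End.one_apply, ← sub_smul]
    push_cast
    rfl
  have key : ∀ J : Finset (Fin D), (∀ x ∈ alg I, ∀ w ∈ Submodule.span K (b '' (J : Set (Fin D))),
        x w ∈ Submodule.span K (b '' (J : Set (Fin D)))) →
        ∃ n : ℕ, J.card = n * d ∧ (J = Finset.univ → n = ρ) ∧
        ∀ z : ℤ, (J.filter (fun j => f j = z)).card = n * (d - κ (X - (z : K) • 1)) := by
    intro J hJ
    obtain ⟨n, h1, h2, h3⟩ := hκ _ hJ
    rw [finrank_span14] at h1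
    refine ⟨n, h1, ?_, ?_⟩
    · intro hJu
      apply h2
      rw [hJu, Finset.coe_univ, Set.image_univ]
      exact b.span_eq
    · intro z
      have h4 := h3 _ (hXz z)
      rw [map14 b (hXf z), finrank_span14] at h4
      have h5 : (J.filter (fun j => ((f j - z : ℤ) : K) ≠ 0)) = J.filter (fun j => ¬ f j = z) := by
        apply Finset.filter_congr
        intro j _
        rw [Ne, Int.cast_eq_zero, sub_eq_zero]
      rw [h5] at h4
      have h6 := Finset.card_filter_add_card_filter_not (s := J) (fun j => f j = z)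
      rw [Nat.mul_sub, ← h4, ← h1]
      omega
  refine ⟨fun z => d - κ (X - (z : K) • 1), ?_, ?_⟩
  · intro z
    obtain ⟨n, -, h2, h3⟩ := key Finset.univ (by
      intro x _ w _
      rw [Finset.coe_univ, Set.image_univ, b.span_eq]
      trivial)
    rw [h3, h2 rfl]
  · intro J hJ z
    obtain ⟨n, h1, -, h3⟩ := key J hJ
    rw [h3, h1]
    ring

/-- The indices of the involutions in `M`. -/
noncomputable def AI {n : ℕ} (s : Fin n → Module.End K V) (M : Submodule K (Module.End K V)) :
    Finset (Fin n) := by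
  classical exact Finset.univ.filter (fun i => s i ∈ M)

theorem mem_AI {n : ℕ} {s : Fin n → Module.End K V} {M : Submodule K (Module.End K V)}
    {i : Fin n} : i ∈ AI s M ↔ s i ∈ M := by
  classical
  unfold AI
  simp

/-- The part of `∑ c i • s i` in `M`. -/
noncomputable def XI {n : ℕ} (c : Fin n → ℕ) (s : Fin n → Module.End K V)
    (M : Submodule K (Module.End K V)) : Module.End K V := ∑ i ∈ AI s M, c i • s i

/-- Its eigenvalues. -/
noncomputable def FI {n : ℕ} (c : Fin n → ℕ) (s : Fin n → Module.End K V)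
    (χ : Fin n → Fin D → ℤ) (M : Submodule K (Module.End K V)) (j : Fin D) : ℤ :=
  ∑ i ∈ AI s M, c i * χ i j

variable {n : ℕ} {c : Fin n → ℕ} {s : Fin n → Module.End K V} {χ : Fin n → Fin D → ℤ}

theorem XI_mem : XI c s M ∈ M := by
  unfold XI
  apply Submodule.sum_mem
  intro i hi
  exact nsmul_mem (mem_AI.mp hi) _

theorem XI_b (hb : ∀ i j, s i (b j) = (χ i j : K) • b j) (M : Submodule K (Module.End K V))
    (j : Fin D) : XI c s M (b j) = (FI c s χ M j : K) • b j := by
  unfold XI FI
  rw [LinearMap.sum_apply, Int.cast_sum, Finset.sum_smul]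
  apply Finset.sum_congr rfl
  intro i _
  rw [LinearMap.smul_apply, hb, Int.cast_mul, Int.cast_natCast, mul_smul, Nat.cast_smul_eq_nsmul]

theorem FI_le (hχ : ∀ i j, χ i j = 1 ∨ χ i j = -1) (M : Submodule K (Module.End K V))
    (j : Fin D) : |FI c s χ M j| ≤ ∑ i ∈ AI s M, (c i : ℤ) := by
  unfold FI
  refine (Finset.abs_sum_le_sum_abs _ _).trans (Finset.sum_le_sum fun i _ => ?_)
  rcases hχ i j with h | h <;> rw [h] <;> simp

/-- The indices for a sum of two ideals. -/
theorem AI_sup [IsAlgClosed K] [CharZero K] (hL : IrrSymp ω L) (hω : ω.Nondegenerate)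
    [Nontrivial V] (hs : ∀ i, s i ∈ L) (hss : ∀ i, s i * s i = 1) (hI : IsId L I)
    (hM : IsId L M) (hinf : I ⊓ M = ⊥) :
    Disjoint (AI s I) (AI s M) ∧ AI s (I ⊔ M) = AI s I ∪ AI s M := by
  classical
  constructor
  · rw [Finset.disjoint_left]
    intro i hi hi'
    have h1 : s i ∈ I ⊓ M := ⟨mem_AI.mp hi, mem_AI.mp hi'⟩
    rw [hinf, Submodule.mem_bot] at h1
    have h2 := hss i
    rw [h1, mul_zero] at h2
    exact one_ne_zero h2.symm
  · ext i
    rw [Finset.mem_union, mem_AI, mem_AI, mem_AI]
    constructor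
    · intro h
      rcases hL.inv_dich hω hI (hs i) (hss i) with h1 | h1
      · exact Or.inl h1
      · right
        obtain ⟨x, hx, m, hm, hxe⟩ := Submodule.mem_sup.mp h
        have h2 : x = 0 := by
          apply hL.inf_orth hω hI hx
          have h3 := (orth L I).sub_mem h1 (hL.le_orth hω hI hM hinf hm)
          rwa [← hxe, add_sub_cancel_right] at h3
        rw [← hxe, h2, zero_add]
        exact hm
    · rintro (h | h)
      · exact Submodule.mem_sup_left h
      · exact Submodule.mem_sup_right h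

/-- The induction on the decomposition. -/
theorem ind14 [IsAlgClosed K] [CharZero K] (hL : IrrSymp ω L) (hω : ω.Nondegenerate)
    [Nontrivial V] {ρ d C : ℕ} {ε : K} (hρ : finrank K V = ρ * d)
    (hs : ∀ i, s i ∈ L) (hss : ∀ i, s i * s i = 1)
    (hb : ∀ i j, s i (b j) = (χ i j : K) • b j) (hχ : ∀ i j, χ i j = 1 ∨ χ i j = -1)
    (hC : ∑ i, c i = C) {m : ℤ → ℕ} (hρ0 : 0 < ρ)
    (hm : ∀ I, QI ω L ρ ε I →
      (∀ z, (Finset.univ.filter (fun j => FI c s χ I j = z)).card = ρ * m z) ∧
      ∀ J : Finset (Fin D), (∀ x ∈ alg I, ∀ w ∈ Submodule.span K (b '' (J : Set (Fin D))),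
        x w ∈ Submodule.span K (b '' (J : Set (Fin D)))) →
        ∀ z, (J.filter (fun j => FI c s χ I j = z)).card * d = J.card * m z)
    (h0 : ∀ z, m z ≠ 0 → |z| ≤ C)
    {β : Fin d → ℤ} (hβ : ∀ z, (Finset.univ.filter (fun t => β t = z)).card = m z) :
    ∀ (N : ℕ) (M : Submodule K (Module.End K V)), Dec ω L ρ ε N M →
      (∀ z, m z ≠ 0 → N * |z| ≤ ∑ i ∈ AI s M, (c i : ℤ)) ∧
      ∀ z, (Finset.univ.filter (fun j => FI c s χ M j = z)).card * d ^ N = D * cnt14 β N z := by
  classical
  intro N
  induction N with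
  | zero =>
    intro M hM
    change M = ⊥ at hM
    subst hM
    have hA : AI s (⊥ : Submodule K (Module.End K V)) = ∅ := by
      ext i
      rw [mem_AI, Submodule.mem_bot]
      constructor
      · intro h
        have h2 := hss i
        rw [h, mul_zero] at h2
        exact absurd h2.symm one_ne_zero
      · intro h
        simp at h
    constructor
    · intro z _
      rw [hA]
      simp
    · intro z
      have hF : ∀ j, FI c s χ (⊥ : Submodule K (Module.End K V)) j = 0 := by
        intro j
        unfold FI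
        rw [hA, Finset.sum_empty]
      rw [cnt14_zero, pow_zero, mul_one]
      by_cases hz : z = 0
      · rw [if_pos hz, hz, mul_one]
        simp [hF]
      · rw [if_neg hz, mul_zero, Finset.card_eq_zero, Finset.filter_eq_empty_iff]
        intro j _ h
        rw [hF] at h
        exact hz h.symm
  | succ N ih =>
    rintro M ⟨I, M', hI, hM', hinf, rfl⟩
    obtain ⟨ih1, ih2⟩ := ih M' hM'
    obtain ⟨hM'id, -⟩ := Dec.main hL hω hρ inferInstance _ M' hM'
    obtain ⟨hdisj, hun⟩ := AI_sup hL hω hs hss hI.1 hM'id hinf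
    obtain ⟨m1, m2⟩ := hm I hI
    have hF : ∀ j, FI c s χ (I ⊔ M') j = FI c s χ I j + FI c s χ M' j := by
      intro j
      unfold FI
      rw [hun, Finset.sum_union hdisj]
    constructor
    · intro z hz
      rw [hun, Finset.sum_union hdisj]
      have h1 : |z| ≤ ∑ i ∈ AI s I, (c i : ℤ) := by
        have h2 : (Finset.univ.filter (fun j => FI c s χ I j = z)).Nonempty := by
          rw [← Finset.card_pos, m1]
          positivity
        obtain ⟨j, hj⟩ := h2
        rw [Finset.mem_filter] at hj
        rw [← hj.2]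
        exact FI_le hχ I j
      have h3 := ih1 z hz
      push_cast
      linarith
    · intro z
      have h1 : ∀ y x, (Finset.univ.filter (fun j => FI c s χ M' j = y ∧
          FI c s χ I j = x)).card * d =
          (Finset.univ.filter (fun j => FI c s χ M' j = y)).card * m x := by
        intro y x
        rw [← Finset.filter_filter]
        apply m2
        intro a ha w hw
        -- the subspace is an eigenspace of `XI c s M'`
        have e1 : (Finset.univ.filter (fun j => FI c s χ M' j = y)) =
            (Finset.univ.filter (fun j => ((FI c s χ M' j : ℤ) : K) = (y : K))) := by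
          apply Finset.filter_congr
          intro j _
          rw [Int.cast_inj]
        rw [e1, ← eigen14 b (XI_b b hb M') (y : K), Module.End.mem_eigenspace_iff] at hw ⊢
        have hcomm : ∀ x ∈ I, ∀ y ∈ M', x * y = y * x := fun x hx y hy =>
          IrrSymp.comm_of_inf hI.1 hM'id hinf hx hy
        have h3 : a * XI c s M' = XI c s M' * a := alg_comm hcomm ha (le_alg XI_mem)
        have h4 : (XI c s M') (a w) = a (XI c s M' w) :=
          (congrArg (fun z : Module.End K V => z w) h3).symm
        rw [h4, hw, map_smul]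
      have h5 := step14 h0 hβ (fun j => FI c s χ I j) (fun j => FI c s χ M' j) (C := C) (by
        intro j
        refine (FI_le hχ I j).trans ?_
        rw [← hC]
        push_cast
        exact Finset.sum_le_univ_sum_of_nonneg (fun i => by positivity)) h1 ih2 z
      rw [← h5]
      congr 2
      apply Finset.filter_congr
      intro j _
      rw [hF]

end basis

end PR
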