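import Pool.Agent.Helper14.PT.SpO

/-!
The half spin groups: pairs with given slopes.
-/

set_option linter.unusedSectionVars false
set_option linter.unusedVariables false

open Module MTPairs MTP TRSpin

namespace PR

/-- The even subset of a weight. -/
def evs14 {n : ℕ} (p : Sx n) : Finset (Fin (n + 1)) :=
  Finset.univ.filter (fun j => sg p j = -1)

theorem prod_sg14 {n : ℕ} (p : Sx n) : ∏ j, sg p j = 1 := by
  rw [Fin.prod_univ_succ]
  have h0 : sg p 0 = ∏ i : Fin n, sg p i.succ := rfl
  rw [h0, ← Finset.prod_mul_distrib]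
  apply Finset.prod_eq_one
  intro i _
  rcases sg_or p i.succ with h | h <;> rw [h] <;> norm_num

theorem even14 {n : ℕ} (f : Fin n → ℤ) (hf : ∀ j, f j = 1 ∨ f j = -1) :
    ∏ j, f j = (-1) ^ (Finset.univ.filter (fun j => f j = -1)).card := by
  classical
  rw [← Finset.prod_filter_mul_prod_filter_not Finset.univ (fun j => f j = -1)]
  rw [Finset.prod_congr rfl (g := fun _ => (-1 : ℤ)) (fun j hj => (Finset.mem_filter.mp hj).2),
    Finset.prod_const, Finset.prod_eq_one (s := Finset.univ.filter (fun j => ¬ f j = -1)), mul_one]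
  intro j hj
  exact (hf j).resolve_right (Finset.mem_filter.mp hj).2

theorem evs_inj14 {n : ℕ} : Function.Injective (evs14 (n := n)) := by
  intro p p' h
  funext i
  have h1 : i.succ ∈ evs14 p ↔ i.succ ∈ evs14 p' := by rw [h]
  have h2 : ∀ p : Sx n, i.succ ∈ evs14 p ↔ p i ≠ 0 := by
    intro p
    unfold evs14
    rw [Finset.mem_filter]
    have : sg p i.succ = sg1 (p i) := rfl
    rw [this, sg1]
    by_cases h : p i = 0
    · simp [h]
    · simp [h]
  rw [h2, h2] at h1
  generalize p i = a at *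
  generalize p' i = b at *
  fin_cases a <;> fin_cases b <;> simp at h1 ⊢

theorem evs_image14 {n : ℕ} : Finset.univ.image (evs14 (n := n)) =
    Finset.univ.filter (fun I : Finset (Fin (n + 1)) => Even I.card) := by
  classical
  ext I
  rw [Finset.mem_image, Finset.mem_filter]
  constructor
  · rintro ⟨p, -, rfl⟩
    refine ⟨Finset.mem_univ _, ?_⟩
    have h1 := even14 (sg p) (sg_or p)
    rw [prod_sg14] at h1
    exact (neg_one_pow_eq_one_iff_even (by norm_num)).mp h1.symm
  · rintro ⟨-, hI⟩
    refine ⟨fun i => if i.succ ∈ I then 1 else 0, Finset.mem_univ _, ?_⟩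
    set p : Sx n := fun i => if i.succ ∈ I then 1 else 0 with hp
    have hs : ∀ i : Fin n, sg p i.succ = if i.succ ∈ I then -1 else 1 := by
      intro i
      have : sg p i.succ = sg1 (p i) := rfl
      rw [this, sg1, hp]
      by_cases h : i.succ ∈ I <;> simp [h]
    have h0 : sg p 0 = if (0 : Fin (n + 1)) ∈ I then -1 else 1 := by
      have h1 := prod_sg14 p
      have h2 := even14 (fun j : Fin (n + 1) => if j ∈ I then (-1 : ℤ) else 1) (by
        intro j
        by_cases h : j ∈ I <;> simp [h])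
      have h3 : (Finset.univ.filter (fun j : Fin (n + 1) =>
          (if j ∈ I then (-1 : ℤ) else 1) = -1)) = I := by
        ext j
        rw [Finset.mem_filter]
        by_cases h : j ∈ I <;> simp [h]
      rw [h3, hI.neg_one_pow] at h2
      rw [Fin.prod_univ_succ] at h1 h2
      have h4 : ∏ i : Fin n, sg p i.succ =
          ∏ i : Fin n, (if i.succ ∈ I then (-1 : ℤ) else 1) :=
        Finset.prod_congr rfl (fun i _ => hs i)
      rw [← h4] at h2
      have h5 : (∏ i : Fin n, sg p i.succ) ≠ 0 := by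
        intro h
        rw [h, mul_zero] at h1
        exact zero_ne_one h1
      exact mul_right_cancel₀ h5 (h1.trans h2.symm)
    ext j
    unfold evs14
    rw [Finset.mem_filter]
    refine Fin.cases ?_ (fun i => ?_) j
    · rw [h0]
      by_cases h : (0 : Fin (n + 1)) ∈ I <;> simp [h]
    · rw [hs]
      by_cases h : i.succ ∈ I <;> simp [h]

/-- The slopes as a family indexed by the weights. -/
theorem spin_multiset14 {n : ℕ} (x : Fin (n + 1) → ℚ) :
    (Finset.univ.filter (fun I : Finset (Fin (n + 1)) => Even I.card)).val.map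
      (fun I => 1 / 2 + 1 / 2 * ∑ i, if i ∈ I then - x i else x i) =
    Finset.univ.val.map (fun p : Sx n => 1 / 2 + 1 / 2 * ∑ j, (sg p j : ℚ) * x j) := by
  classical
  rw [← evs_image14, Finset.image_val_of_injOn evs_inj14.injOn, Multiset.map_map]
  apply Multiset.map_congr rfl
  intro p _
  simp only [Function.comp]
  congr 2
  apply Finset.sum_congr rfl
  intro j _
  unfold evs14
  rcases sg_or p j with h | h
  · rw [if_neg (by rw [Finset.mem_filter, h]; norm_num), h]; simp
  · rw [if_pos (by rw [Finset.mem_filter, h]; simp), h]; simp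

/-- Common denominators. -/
theorem exists_int14 {n : ℕ} (x : Fin n → ℚ) :
    ∃ (M : ℕ) (X : Fin n → ℤ), 0 < M ∧ ∀ j, (X j : ℚ) = M * x j := by
  classical
  refine ⟨∏ j, (x j).den, fun j => (∏ i ∈ Finset.univ.erase j, (x i).den : ℕ) * (x j).num,
    Finset.prod_pos (fun j _ => (x j).den_pos), fun j => ?_⟩
  rw [← Finset.mul_prod_erase Finset.univ (fun i => (x i).den) (Finset.mem_univ j)]
  push_cast
  have h := Rat.mul_den_eq_num (x j)
  rw [← h]
  ring

theorem aux14 (a : ℤ) (r : ℕ) {s : ℤ} (hs : s = 1 ∨ s = -1) :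
    ((2 * a.toNat + r : ℕ) : ℤ) * (if s = 1 then 1 else 0) +
      ((2 * (-a).toNat + r : ℕ) : ℤ) * (if s = -1 then 1 else 0) =
      (a.natAbs : ℤ) + s * a + (r : ℤ) := by
  rcases hs with rfl | rfl
  · rw [if_pos rfl, if_neg (by norm_num)]
    omega
  · rw [if_neg (by norm_num), if_pos rfl]
    omega

section
variable {K : Type*} [Field K] {k : ℕ}

theorem spin_bad14 [IsAlgClosed K] [CharZero K] {n : ℕ} (hk : n = k + 2)
    (hn : n % 4 = 1 ∨ n % 4 = 2) (hn5 : 5 ≤ n)
    {H : Subgroup (Matrix.GeneralLinearGroup (Sx (k + 2)) K)}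
    (h1 : EN (VS K (k + 2)) (x0 K k) (y0 K k) ≤ H) (h2 : H ≤ ED (VS K (k + 2)) (x0 K k) (y0 K k))
    (h3 : H ≤ Iso (JS K (k + 2))) (h4 : H ≤ GenG (OrbN H (x0 K k * y0 K k)))
    (x : Fin (k + 2 + 1) → ℚ) (hx : ∑ i, |x i| ≤ 1)
    (h5 : x 0 ≠ 0 → ∀ g, g = g0 K (k + 2) ∨ g = -g0 K (k + 2) →
      (2 : K)⁻¹ • (1 + g) ∈ OrbN H (x0 K k * y0 K k)) {N : ℕ} (hN : 0 < N) :
    Bad K (Finset.univ.val.map
      (fun p : Sx (k + 2) => 1 / 2 + 1 / 2 * ∑ j, (sg p j : ℚ) * x j)) N := by
  classical
  have hn' : (k + 2) % 4 = 1 ∨ (k + 2) % 4 = 2 := by rw [← hk]; exact hn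
  have hJt : (JS K (k + 2)).transpose = -JS K (k + 2) := JS_t hn'
  have hJd : (JS K (k + 2)).det ≠ 0 := JS_det hn'
  have hee : (-1 : K) ^ (k + 2) * (-1 : K) ^ (k + 2) = 1 := by
    rw [← mul_pow]; simp
  have hP0 : x0 K k * y0 K k ∈ LagSet (JS K (k + 2)) := hyp_lag hee JS_VS
    ⟨_, jw_mem 0 mem_cm, _, jw_mem 0 mem_am, x0_sq, y0_sq, x0_y0, rfl⟩
  have hlag : ∀ P ∈ OrbN H (x0 K k * y0 K k), P ∈ LagSet (JS K (k + 2)) :=
    fun P hP => orb_lag14 hP0 h3 hP
  obtain ⟨M, X, hM, hX⟩ := exists_int14 x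
  -- the remainder
  have hsum : ∑ j, (X j).natAbs ≤ M := by
    have e1 : ((∑ j, (X j).natAbs : ℕ) : ℚ) = M * ∑ j, |x j| := by
      rw [Finset.mul_sum, Nat.cast_sum]
      apply Finset.sum_congr rfl
      intro j _
      rw [Nat.cast_natAbs, Int.cast_abs, hX, abs_mul, abs_of_nonneg (Nat.cast_nonneg M)]
    have hM' : (0 : ℚ) ≤ M := Nat.cast_nonneg M
    have e2 : ((∑ j, (X j).natAbs : ℕ) : ℚ) ≤ M := by rw [e1]; nlinarith
    exact_mod_cast e2
  obtain ⟨R, hR⟩ := Nat.exists_eq_add_of_le hsum
  set P : Fin (k + 2 + 1) × Bool → Matrix (Sx (k + 2)) (Sx (k + 2)) K := fun jb =>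
    Matrix.diagonal (fun p => if sg p jb.1 = (if jb.2 then 1 else -1) then (1 : K) else 0)
    with hPdef
  set c : Fin (k + 2 + 1) × Bool → ℕ := fun jb =>
    2 * (if jb.2 then (X jb.1).toNat else (-X jb.1).toNat) + (if jb.1 = 1 then R else 0)
    with hcdef
  have hcsum : ∑ jb, c jb = 2 * M := by
    rw [Fintype.sum_prod_type]
    simp only [Fintype.sum_bool, hcdef, if_true, Bool.false_eq_true, if_false]
    have e1 : ∀ j : Fin (k + 2 + 1), 2 * (X j).toNat + (if j = 1 then R else 0) +
        (2 * (-X j).toNat + (if j = 1 then R else 0)) =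
        2 * (X j).natAbs + (if j = 1 then 2 * R else 0) := by
      intro j
      by_cases hj : j = 1
      · simp only [hj, if_true]; omega
      · simp only [hj, if_false]; omega
    rw [Finset.sum_congr rfl (fun j _ => e1 j), Finset.sum_add_distrib, ← Finset.mul_sum,
      Finset.sum_ite_eq' Finset.univ (1 : Fin (k + 2 + 1)) (fun _ => 2 * R),
      if_pos (Finset.mem_univ _), hR]
    ring
  refine bad_of_diag14 (J := JS K (k + 2)) (G := GenG (OrbN H (x0 K k * y0 K k)))
    (π := x0 K k * y0 K k) (isMTPair_gen hJt hJd (fun P hP => (hlag P hP).1)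
      (fun P hP => (hlag P hP).2)) ?_ (GenG_cochar hP0.1 (OrbN_self _ _))
    (not_full14 hk hn hn5 h2) hN c P (by rw [hcsum]; omega) ?_ ?_ _ ?_
  · -- irreducible
    intro U hU
    apply spin_irr
    intro P hP v hv
    have hP' : P ∈ OrbN H (x0 K k * y0 K k) := OrbN_mono14 h1 _ hP
    obtain ⟨g, hg, hgt⟩ := (GenG_cochar (hlag P hP').1 hP').2 2 two_ne_zero
    have e1 := hU g hg v hv
    have e2 : (g : Matrix _ _ K).mulVec v = P.mulVec v + v := by
      rw [hgt]
      have : (2 : K) • P + (1 - P) = P + 1 := by rw [two_smul]; abel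
      rw [this, Matrix.add_mulVec, Matrix.one_mulVec]
    rw [e2] at e1
    have := U.sub_mem e1 hv
    rwa [add_sub_cancel_right] at this
  · -- conjugates
    rintro ⟨j, b⟩ hj
    have hmem : P (j, b) ∈ OrbN H (x0 K k * y0 K k) := by
      revert hj
      refine Fin.cases ?_ (fun i => ?_) j
      · intro hj
        have hX0 : X 0 ≠ 0 := by
          intro h0
          apply hj
          have h10 : (0 : Fin (k + 2 + 1)) ≠ 1 := by
            intro h
            have := congrArg Fin.val h
            simp at this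
          simp only [hcdef, h0, h10, if_false, neg_zero, Int.toNat_zero]
          cases b <;> rfl
        have hx0 : x 0 ≠ 0 := by
          intro h0
          apply hX0
          have := hX 0
          rw [h0, mul_zero] at this
          exact_mod_cast this
        have h6 := h5 hx0 (if b then g0 K (k + 2) else -g0 K (k + 2)) (by
          cases b <;> simp)
        have e : P (0, b) = (2 : K)⁻¹ • (1 + (if b then g0 K (k + 2) else -g0 K (k + 2))) := by
          simp only [hPdef]
          rw [diag_g14, ← Matrix.diagonal_one]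
          ext p q
          by_cases hpq : p = q
          · subst hpq
            rcases sg_or p 0 with h | h <;> cases b <;>
              simp [h, Matrix.add_apply, Matrix.smul_apply] <;> norm_num
          · cases b <;> simp [Matrix.diagonal_apply_ne _ hpq, Matrix.add_apply,
              Matrix.smul_apply, Matrix.one_apply_ne hpq]
        rw [e]
        exact h6
      · intro _
        have e : P (i.succ, b) = loc i (if b then am K * cm K else cm K * am K) :=
          (diag_loc14 i b).symm
        rw [e]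
        cases b
        · exact (orb_loc14 h1 i).1
        · exact (orb_loc14 h1 i).2
    obtain ⟨h, hh, he⟩ := hmem
    refine ⟨h, h4 hh, ?_⟩
    rw [he, mul_assoc, GL_inv_mul, mul_one]
  · rintro jb jb'
    simp only [hPdef]
    rw [Matrix.diagonal_mul_diagonal, Matrix.diagonal_mul_diagonal]
    congr 1
    funext p
    exact mul_comm _ _
  · -- the diagonal form
    ext p q
    rw [Matrix.sum_apply]
    by_cases hpq : p = q
    · subst hpq
      rw [Matrix.diagonal_apply_eq]
      have e1 : ∀ jb : Fin (k + 2 + 1) × Bool, (c jb • P jb) p p =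
          (((c jb : ℤ) * (if sg p jb.1 = (if jb.2 then 1 else -1) then 1 else 0) : ℤ) : K) := by
        intro jb
        simp only [hPdef]
        rw [Matrix.smul_apply, Matrix.diagonal_apply_eq, nsmul_eq_mul]
        split_ifs <;> simp
      rw [Finset.sum_congr rfl (fun jb _ => e1 jb), ← Int.cast_sum]
      have e2 : ∑ jb : Fin (k + 2 + 1) × Bool, (c jb : ℤ) *
          (if sg p jb.1 = (if jb.2 then 1 else -1) then 1 else 0) =
          M + ∑ j, sg p j * X j := by
        rw [Fintype.sum_prod_type]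
        have e3 : ∀ j : Fin (k + 2 + 1), ∑ b : Bool, (c (j, b) : ℤ) *
            (if sg p j = (if b then 1 else -1) then 1 else 0) =
            ((X j).natAbs : ℤ) + sg p j * X j + (if j = 1 then (R : ℤ) else 0) := by
          intro j
          rw [Fintype.sum_bool]
          simp only [hcdef, if_true, Bool.false_eq_true, if_false]
          rw [aux14 (X j) _ (sg_or p j), Nat.cast_ite, Nat.cast_zero]
        rw [Finset.sum_congr rfl (fun j _ => e3 j), Finset.sum_add_distrib,
          Finset.sum_add_distrib,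
          Finset.sum_ite_eq' Finset.univ (1 : Fin (k + 2 + 1)) (fun _ => (R : ℤ)),
          if_pos (Finset.mem_univ _), hR]
        push_cast
        ring
      rw [e2, hcsum]
      have e4 : (((2 * M : ℕ) : ℚ) * (1 / 2 + 1 / 2 * ∑ j, (sg p j : ℚ) * x j)) =
          ((M + ∑ j, sg p j * X j : ℤ) : ℚ) := by
        push_cast
        have e5 : ∑ j, (sg p j : ℚ) * (X j : ℚ) = M * ∑ j, (sg p j : ℚ) * x j := by
          rw [Finset.mul_sum]
          apply Finset.sum_congr rfl
          intro j _
          rw [hX]; ring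
        rw [e5]
        ring
      rw [e4, Rat.cast_intCast]
    · rw [Matrix.diagonal_apply_ne _ hpq]
      apply Finset.sum_eq_zero
      intro jb _
      simp only [hPdef]
      rw [Matrix.smul_apply, Matrix.diagonal_apply_ne _ hpq, smul_zero]

end

/-- The spin examples. -/
theorem sharp_spin14 {K : Type*} [Field K] [IsAlgClosed K] [CharZero K] {Λ : Multiset ℚ} {N : ℕ}
    (h : SpinPolygon Λ) (hN : 0 < N) : Bad K Λ N := by
  obtain ⟨q, x, hq5, hq, hx, rfl⟩ := h
  rw [spin_multiset14]
  obtain ⟨k, rfl⟩ : ∃ k, q = k + 2 := ⟨q - 2, by omega⟩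
  have hV : IsCliff (VS K (k + 2)) := VS_cliff
  rcases hq with hq | ⟨hq, hx0⟩
  · have hodd : Odd (k + 2) := by
      rw [Nat.odd_iff]; omega
    refine spin_bad14 rfl (Or.inl hq) hq5 (H := ED (VS K (k + 2)) (x0 K k) (y0 K k))
      (EN_le_ED _ _ _) le_rfl ?_ (ED_le_gen14 x0_sq y0_sq x0_y0) x hx
      (fun _ g hg => orb_g14 hg) hN
    refine ED_iso14 ?_ (jw_mem 0 mem_cm) (jw_mem 0 mem_am) x0_sq y0_sq
    intro v hv
    rw [JS_VS v hv, hodd.neg_one_pow, neg_smul, one_smul]
  · have hee : (-1 : K) ^ (k + 2) * (-1 : K) ^ (k + 2) = 1 := by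
      rw [← mul_pow]; simp
    refine spin_bad14 rfl (Or.inr hq) hq5 (H := EN (VS K (k + 2)) (x0 K k) (y0 K k))
      le_rfl (EN_le_ED _ _ _) (EN_iso14 hee JS_VS (jw_mem 0 mem_cm) (jw_mem 0 mem_am) x0_sq
        y0_sq) (EN_le_gen x0_sq y0_sq x0_y0) x hx (fun h => absurd hx0 h) hN

end PR
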