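import Pool.Agent.Helper14.PT.Fam
import Pool.Agent.Helper21.TR.SpinEig

/-!
The half spin groups: Eichler transformations of the space of vectors extended by one dimension.
-/

set_option linter.unusedSectionVars false

open Module MTPairs MTP TRSpin

namespace PR

variable {K : Type*} [Field K] {m : Type*} [Fintype m] [DecidableEq m]

/-- The extra Eichler transformations. -/
def EX (x y : Matrix m m K) : Set (Matrix.GeneralLinearGroup m K) :=
  {u | ∃ t : K, (u : Matrix m m K) = 1 + t • x ∨ (u : Matrix m m K) = 1 + t • y}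

/-- The extended group. -/
def ED (V : Submodule K (Matrix m m K)) (x y : Matrix m m K) :
    Subgroup (Matrix.GeneralLinearGroup m K) := Subgroup.closure (Eich V x y ∪ EX x y)

theorem EN_le_ED (V : Submodule K (Matrix m m K)) (x y : Matrix m m K) : EN V x y ≤ ED V x y :=
  Subgroup.closure_mono Set.subset_union_left

/-- The isometries. -/
def Iso (J : Matrix m m K) : Subgroup (Matrix.GeneralLinearGroup m K) where
  carrier := {h | (h : Matrix m m K).transpose * J * (h : Matrix m m K) = J}
  one_mem' := by
    change (1 : Matrix m m K).transpose * J * 1 = J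
    simp
  mul_mem' := by
    rintro g h hg hh
    change (g : Matrix m m K).transpose * J * (g : Matrix m m K) = J at hg
    change (h : Matrix m m K).transpose * J * (h : Matrix m m K) = J at hh
    change ((g * h : Matrix.GeneralLinearGroup m K) : Matrix m m K).transpose * J *
      ((g * h : Matrix.GeneralLinearGroup m K) : Matrix m m K) = J
    rw [Units.val_mul, Matrix.transpose_mul]
    calc (h : Matrix m m K).transpose * (g : Matrix m m K).transpose * J *
          ((g : Matrix m m K) * (h : Matrix m m K))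
        = (h : Matrix m m K).transpose * ((g : Matrix m m K).transpose * J * (g : Matrix m m K)) *
          (h : Matrix m m K) := by simp only [mul_assoc]
      _ = J := by rw [hg, hh]
  inv_mem' := by
    rintro g hg
    change (g : Matrix m m K).transpose * J * (g : Matrix m m K) = J at hg
    change ((g⁻¹ : Matrix.GeneralLinearGroup m K) : Matrix m m K).transpose * J *
      ((g⁻¹ : Matrix.GeneralLinearGroup m K) : Matrix m m K) = J
    conv_lhs => rw [← hg]
    have h1 : ((g⁻¹ : Matrix.GeneralLinearGroup m K) : Matrix m m K).transpose *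
        (g : Matrix m m K).transpose = 1 := by
      rw [← Matrix.transpose_mul, GL_mul_inv, Matrix.transpose_one]
    calc ((g⁻¹ : Matrix.GeneralLinearGroup m K) : Matrix m m K).transpose *
          ((g : Matrix m m K).transpose * J * (g : Matrix m m K)) *
          ((g⁻¹ : Matrix.GeneralLinearGroup m K) : Matrix m m K)
        = (((g⁻¹ : Matrix.GeneralLinearGroup m K) : Matrix m m K).transpose *
          (g : Matrix m m K).transpose) * J * ((g : Matrix m m K) *
          ((g⁻¹ : Matrix.GeneralLinearGroup m K) : Matrix m m K)) := by simp only [mul_assoc]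
      _ = J := by rw [h1, GL_mul_inv, one_mul, mul_one]

theorem orb_lag14 {J π : Matrix m m K} (hπ : π ∈ LagSet J)
    {H : Subgroup (Matrix.GeneralLinearGroup m K)} (hH : H ≤ Iso J) {P : Matrix m m K}
    (hP : P ∈ OrbN H π) : P ∈ LagSet J := by
  obtain ⟨h, hh, rfl⟩ := hP
  have hJ : (h : Matrix m m K).transpose * J * (h : Matrix m m K) = J := hH hh
  obtain ⟨h1, h2⟩ := hπ
  constructor
  · calc (h : Matrix m m K) * π * ((h⁻¹ : Matrix.GeneralLinearGroup m K) : Matrix m m K) *
          ((h : Matrix m m K) * π * ((h⁻¹ : Matrix.GeneralLinearGroup m K) : Matrix m m K))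
        = (h : Matrix m m K) * π * (((h⁻¹ : Matrix.GeneralLinearGroup m K) : Matrix m m K) *
          (h : Matrix m m K)) * π * ((h⁻¹ : Matrix.GeneralLinearGroup m K) : Matrix m m K) := by
          simp only [mul_assoc]
      _ = _ := by rw [GL_inv_mul, mul_one, mul_assoc (h : Matrix m m K), h1]
  · set h' := ((h⁻¹ : Matrix.GeneralLinearGroup m K) : Matrix m m K) with hh'
    have e0 : (h : Matrix m m K) * h' = 1 := GL_mul_inv h
    have e1 : h' * (h : Matrix m m K) = 1 := GL_inv_mul h
    have e2 : h'.transpose * (h : Matrix m m K).transpose = 1 := by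
      rw [← Matrix.transpose_mul, e0, Matrix.transpose_one]
    have e3 : (h : Matrix m m K).transpose * J = J * h' := by
      calc (h : Matrix m m K).transpose * J =
            (h : Matrix m m K).transpose * J * ((h : Matrix m m K) * h') := by
            rw [e0, mul_one]
        _ = _ := by rw [← mul_assoc, hJ]
    have e4 : h'.transpose * J = J * (h : Matrix m m K) := by
      calc h'.transpose * J = h'.transpose * ((h : Matrix m m K).transpose * J *
            (h : Matrix m m K)) := by rw [hJ]
        _ = (h'.transpose * (h : Matrix m m K).transpose) * J * (h : Matrix m m K) := by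
            simp only [mul_assoc]
        _ = _ := by rw [e2, one_mul]
    calc ((h : Matrix m m K) * π * h').transpose * J + J * ((h : Matrix m m K) * π * h')
        = h'.transpose * (π.transpose * ((h : Matrix m m K).transpose * J)) +
          (J * (h : Matrix m m K)) * π * h' := by
          rw [Matrix.transpose_mul, Matrix.transpose_mul]
          simp only [mul_assoc]
      _ = h'.transpose * (π.transpose * J) * h' + h'.transpose * (J * π) * h' := by
          rw [e3, ← e4]
          simp only [mul_assoc]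
      _ = h'.transpose * (π.transpose * J + J * π) * h' := by
          rw [mul_add, add_mul]
      _ = J := by rw [h2, e4, mul_assoc, e0, mul_one]

theorem iso_unip14 {J z : Matrix m m K} (hz : z * z = 0) (h : z.transpose * J = -(J * z))
    {u : Matrix.GeneralLinearGroup m K} (hu : (u : Matrix m m K) = 1 + z) : u ∈ Iso J := by
  change (u : Matrix m m K).transpose * J * (u : Matrix m m K) = J
  rw [hu]
  exact isom_one_add hz (by rw [h, neg_add_cancel])

/-- The Eichler group preserves the form. -/
theorem EN_iso14 {V : Submodule K (Matrix m m K)} {x y : Matrix m m K} {J : Matrix m m K}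
    {e : K} (he : e * e = 1) (hJ : ∀ v ∈ V, v.transpose * J = e • (J * v)) (hx : x ∈ V)
    (hy : y ∈ V) (h1 : x * x = 0) (h2 : y * y = 0) : EN V x y ≤ Iso J := by
  rw [EN, Subgroup.closure_le]
  have key : ∀ x ∈ V, ∀ w ∈ V, w * x + x * w = 0 → (x * w).transpose * J = -(J * (x * w)) := by
    intro x hx w hw hwx
    have ewx : w * x = -(x * w) := eq_neg_of_add_eq_zero_left hwx
    rw [Matrix.transpose_mul, mul_assoc, hJ x hx, mul_smul_comm, ← mul_assoc, hJ w hw,
      smul_mul_assoc, smul_smul, he, one_smul, mul_assoc, ewx, mul_neg]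
  rintro u ⟨w, hw, hwx, hwy, hu | hu⟩
  · exact iso_unip14 (eich_sq h1 hwx) (key x hx w hw hwx) hu
  · exact iso_unip14 (eich_sq h2 hwy) (key y hy w hw hwy) hu

theorem ED_iso14 {V : Submodule K (Matrix m m K)} {x y : Matrix m m K} {J : Matrix m m K}
    (hJ : ∀ v ∈ V, v.transpose * J = -(J * v)) (hx : x ∈ V)
    (hy : y ∈ V) (h1 : x * x = 0) (h2 : y * y = 0) : ED V x y ≤ Iso J := by
  rw [ED, Subgroup.closure_le, Set.union_subset_iff]
  constructor
  · have h3 := EN_iso14 (V := V) (J := J) (e := -1) (by norm_num)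
      (fun v hv => by rw [hJ v hv, neg_smul, one_smul]) hx hy h1 h2
    rw [EN, Subgroup.closure_le] at h3
    exact h3
  · rintro u ⟨t, hu | hu⟩
    · exact iso_unip14 (z := t • x) (by rw [smul_mul_assoc, mul_smul_comm, h1, smul_zero, smul_zero])
        (by rw [Matrix.transpose_smul, smul_mul_assoc, hJ x hx, mul_smul_comm, smul_neg]) hu
    · exact iso_unip14 (z := t • y) (by rw [smul_mul_assoc, mul_smul_comm, h2, smul_zero, smul_zero])
        (by rw [Matrix.transpose_smul, smul_mul_assoc, hJ y hy, mul_smul_comm, smul_neg]) hu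

theorem GenG_mono14 {Λ Λ' : Set (Matrix m m K)} (h : Λ ⊆ Λ') : GenG Λ ≤ GenG Λ' := by
  rw [GenG, GenG]
  apply sInf_le_sInf
  rintro H ⟨h1, h2⟩
  exact ⟨h1, fun P hP => h2 P (h hP)⟩

theorem OrbN_mono14 {H H' : Subgroup (Matrix.GeneralLinearGroup m K)} (h : H ≤ H')
    (π : Matrix m m K) : OrbN H π ⊆ OrbN H' π := by
  rintro P ⟨g, hg, rfl⟩
  exact ⟨g, h hg, rfl⟩

/-- The extended group is generated by the cocharacters. -/
theorem ED_le_gen14 [CharZero K] {V : Submodule K (Matrix m m K)} {x y : Matrix m m K}
    (h1 : x * x = 0) (h2 : y * y = 0) (h3 : x * y + y * x = 1) :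
    ED V x y ≤ GenG (OrbN (ED V x y) (x * y)) := by
  rw [ED, Subgroup.closure_le, Set.union_subset_iff]
  constructor
  · have h4 : EN V x y ≤ GenG (OrbN (ED V x y) (x * y)) :=
      (EN_le_gen h1 h2 h3).trans (GenG_mono14 (OrbN_mono14 (EN_le_ED V x y) _))
    rw [EN, Subgroup.closure_le] at h4
    exact h4
  · have hz : ∀ (z : Matrix m m K), z * z = 0 → ∀ t : K, (t • z) * (t • z) = 0 := by
      intro z hz t
      rw [smul_mul_assoc, mul_smul_comm, hz, smul_zero, smul_zero]
    have hmk : ∀ (z : Matrix m m K), z * z = 0 → ∀ t : K,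
        ∃ u : Matrix.GeneralLinearGroup m K, (u : Matrix m m K) = 1 + t • z :=
      fun z hzz t => ⟨⟨1 + t • z, 1 - t • z, one_add_mul (hz z hzz t),
        one_sub_mul (hz z hzz t)⟩, rfl⟩
    rintro u ⟨t, hu | hu⟩
    · -- the unipotent for `x`
      obtain ⟨w, hw⟩ := hmk x h1 (-t)
      have hmem : x * y + t • x ∈ OrbN (ED V x y) (x * y) := by
        refine ⟨w, Subgroup.subset_closure (Or.inr ⟨-t, Or.inl hw⟩), ?_⟩
        rw [val_inv hw (hz x h1 _), hw]
        have e1 : x * y * ((-t) • x) = (-t) • x := by rw [mul_smul_comm, xyx h1 h3]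
        have e2 : ((-t) • x) * (x * y) = 0 := by
          rw [smul_mul_assoc, ← mul_assoc, h1, zero_mul, smul_zero]
        rw [add_mul, one_mul, e2, add_zero, mul_sub, mul_one, e1, neg_smul, sub_neg_eq_add]
      obtain ⟨u', hu', e'⟩ := unip_mem (x := t • x) (OrbN_self _ _) hmem
        (by rw [smul_mul_assoc, ← mul_assoc, h1, zero_mul, smul_zero]) (hz x h1 t)
      have e2 : u' = u := by
        apply Units.ext
        rw [e', hu]
      rw [e2] at hu'
      exact hu'
    · obtain ⟨w, hw⟩ := hmk y h2 t
      have hmem : x * y + t • y ∈ OrbN (ED V x y) (x * y) := by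
        refine ⟨w, Subgroup.subset_closure (Or.inr ⟨t, Or.inr hw⟩), ?_⟩
        rw [val_inv hw (hz y h2 _), hw]
        have e1 : (t • y) * (x * y) = t • y := by
          rw [smul_mul_assoc, ← mul_assoc, yxy h2 h3]
        have e2 : (x * y + t • y) * (t • y) = 0 := by
          rw [add_mul, hz y h2, mul_smul_comm, mul_assoc, h2, mul_zero, smul_zero, add_zero]
        rw [add_mul, one_mul, e1, mul_sub, mul_one, e2, sub_zero]
      obtain ⟨u', hu', e'⟩ := unip_mem' (x := t • y) (OrbN_self _ _) hmem
        (by rw [mul_smul_comm, mul_assoc, h2, mul_zero, smul_zero]) (hz y h2 t)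
      have e2 : u' = u := by
        apply Units.ext
        rw [e', hu]
      rw [e2] at hu'
      exact hu'

/-- The Weyl element. -/
theorem weyl14 {p p' E F : Matrix m m K} (hE : E * p = 0) (hF : F * p = F)
    (hEF : E * F = -(p * (1 - p'))) (hpE : p' * E = 0) (hpF : p' * F = F)
    (hFE : F * E = -((1 - p) * p')) (hpp : p * p' = p' * p) (hp : p * p = p)
    (hp' : p' * p' = p') :
    (1 + E) * (1 + F) * (1 + E) * p = p' * ((1 + E) * (1 + F) * (1 + E)) := by
  have a1 : (1 + E) * p = p := by rw [add_mul, one_mul, hE, add_zero]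
  have a2 : (1 + F) * p = p + F := by rw [add_mul, one_mul, hF]
  have a3 : (1 + E) * (p + F) = F + p * p' := by
    rw [add_mul, one_mul, mul_add, hE, hEF, mul_sub, mul_one]
    abel
  have b1 : p' * (1 + E) = p' := by rw [mul_add, mul_one, hpE, add_zero]
  have b2 : p' * (1 + F) = p' + F := by rw [mul_add, mul_one, hpF]
  have b3 : (p' + F) * (1 + E) = F + p * p' := by
    rw [mul_add, mul_one, add_mul, hpE, hFE, sub_mul, one_mul]
    abel
  calc (1 + E) * (1 + F) * (1 + E) * p = (1 + E) * ((1 + F) * ((1 + E) * p)) := by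
        simp only [mul_assoc]
    _ = F + p * p' := by rw [a1, a2, a3]
    _ = p' * (1 + E) * (1 + F) * (1 + E) := by rw [b1, b2, b3]
    _ = _ := by simp only [mul_assoc]

/-- The step between two orthogonal pairs. -/
theorem step_pair14 {H : Subgroup (Matrix.GeneralLinearGroup m K)} {π p p' E F : Matrix m m K}
    (hE : E * p = 0) (hF : F * p = F)
    (hEF : E * F = -(p * (1 - p'))) (hpE : p' * E = 0) (hpF : p' * F = F)
    (hFE : F * E = -((1 - p) * p')) (hpp : p * p' = p' * p) (hp : p * p = p)
    (hp' : p' * p' = p') (hmem : p ∈ OrbN H π)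
    (h1 : ∃ u ∈ H, (u : Matrix m m K) = 1 + E) (h2 : ∃ u ∈ H, (u : Matrix m m K) = 1 + F) :
    p' ∈ OrbN H π := by
  obtain ⟨u, hu, eu⟩ := h1
  obtain ⟨w, hw, ew⟩ := h2
  obtain ⟨h, hh, hph⟩ := hmem
  have hW := weyl14 hE hF hEF hpE hpF hFE hpp hp hp'
  obtain ⟨g, hg⟩ : ∃ g, g = u * w * u := ⟨_, rfl⟩
  have hgH : g ∈ H := by
    rw [hg]; exact Subgroup.mul_mem _ (Subgroup.mul_mem _ hu hw) hu
  have e : (g : Matrix m m K) = (1 + E) * (1 + F) * (1 + E) := by
    rw [hg, Units.val_mul, Units.val_mul, eu, ew]
  rw [← e] at hW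
  refine ⟨g * h, Subgroup.mul_mem _ hgH hh, ?_⟩
  rw [mul_inv_rev, Units.val_mul, Units.val_mul]
  calc p' = p' * ((g : Matrix m m K) * ((g⁻¹ : Matrix.GeneralLinearGroup m K) : Matrix m m K)) := by
        rw [GL_mul_inv, mul_one]
    _ = (p' * (g : Matrix m m K)) * ((g⁻¹ : Matrix.GeneralLinearGroup m K) : Matrix m m K) := by
        rw [mul_assoc]
    _ = _ := by rw [← hW, hph]; simp only [mul_assoc]

end PR
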