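import Pool.Agent.Helper14.PT.SpG

/-!
The half spin groups: orbits of the diagonal idempotents, the normalised subspace.
-/

set_option linter.unusedSectionVars false
set_option linter.unusedVariables false

open Module MTPairs MTP TRSpin

namespace PR

section rel
variable {K : Type*} [Field K] {m : Type*} [Fintype m] [DecidableEq m]

/-- The relations for two orthogonal hyperbolic pairs. -/
theorem pair_step14 {H : Subgroup (Matrix.GeneralLinearGroup m K)} {π x y x' y' : Matrix m m K}
    (h1 : x * x = 0) (h2 : y * y = 0) (h3 : x * y + y * x = 1)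
    (h1' : x' * x' = 0) (h2' : y' * y' = 0) (h3' : x' * y' + y' * x' = 1)
    (a1 : x' * x = -(x * x')) (a2 : x' * y = -(y * x')) (a3 : y' * x = -(x * y'))
    (a4 : y' * y = -(y * y')) (hmem : x * y ∈ OrbN H π)
    (hE : ∃ u ∈ H, (u : Matrix m m K) = 1 + x * y')
    (hF : ∃ u ∈ H, (u : Matrix m m K) = 1 + y * x') : x' * y' ∈ OrbN H π := by
  have e1 : y * x = 1 - x * y := by rw [← h3]; abel
  have e2 : y' * x' = 1 - x' * y' := by rw [← h3']; abel
  have c1 : x' * y' * x = x * (x' * y') := by
    rw [mul_assoc, a3, mul_neg, ← mul_assoc, a1, neg_mul, neg_neg, mul_assoc]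
  have c2 : x' * y' * y = y * (x' * y') := by
    rw [mul_assoc, a4, mul_neg, ← mul_assoc, a2, neg_mul, neg_neg, mul_assoc]
  refine step_pair14 (E := x * y') (F := y * x') ?_ ?_ ?_ ?_ ?_ ?_ ?_ (hyp_idem h1 h3)
    (hyp_idem h1' h3') hmem hE hF
  · calc x * y' * (x * y) = x * (y' * x) * y := by simp only [mul_assoc]
      _ = -(x * x * (y' * y)) := by rw [a3]; simp only [mul_neg, neg_mul, mul_assoc]
      _ = 0 := by rw [h1, zero_mul, neg_zero]
  · calc y * x' * (x * y) = y * (x' * x) * y := by simp only [mul_assoc]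
      _ = -(y * x * (x' * y)) := by rw [a1]; simp only [mul_neg, neg_mul, mul_assoc]
      _ = y * x * y * x' := by rw [a2]; simp only [mul_neg, neg_neg, mul_assoc]
      _ = _ := by rw [yxy h2 h3]
  · calc x * y' * (y * x') = x * (y' * y) * x' := by simp only [mul_assoc]
      _ = -(x * y * (y' * x')) := by rw [a4]; simp only [mul_neg, neg_mul, mul_assoc]
      _ = _ := by rw [e2]
  · calc x' * y' * (x * y') = (x' * y' * x) * y' := by simp only [mul_assoc]
      _ = x * x' * (y' * y') := by rw [c1]; simp only [mul_assoc]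
      _ = 0 := by rw [h2', mul_zero]
  · calc x' * y' * (y * x') = (x' * y' * y) * x' := by simp only [mul_assoc]
      _ = y * (x' * y' * x') := by rw [c2]; simp only [mul_assoc]
      _ = _ := by rw [xyx h1' h3']
  · calc y * x' * (x * y') = y * (x' * x) * y' := by simp only [mul_assoc]
      _ = -(y * x * (x' * y')) := by rw [a1]; simp only [mul_neg, neg_mul, mul_assoc]
      _ = _ := by rw [e1]
  · calc x * y * (x' * y') = x * (y * (x' * y')) := by rw [mul_assoc]
      _ = x * (x' * y') * y := by rw [← c2]; simp only [mul_assoc]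
      _ = _ := by rw [← c1]; simp only [mul_assoc]

/-- The step to the extra dimension. -/
theorem extra_step14 [CharZero K] {H : Subgroup (Matrix.GeneralLinearGroup m K)}
    {π x y g : Matrix m m K} (h1 : x * x = 0) (h2 : y * y = 0) (h3 : x * y + y * x = 1)
    (hg : g * g = 1) (a1 : g * x = -(x * g)) (a2 : g * y = -(y * g))
    (hmem : x * y ∈ OrbN H π)
    (hE : ∃ u ∈ H, (u : Matrix m m K) = 1 + x * ((2 : K)⁻¹ • (g + 1)))
    (hF : ∃ u ∈ H, (u : Matrix m m K) = 1 + y * ((2 : K)⁻¹ • (g - 1))) :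
    (2 : K)⁻¹ • (1 + g) ∈ OrbN H π := by
  have e1 : y * x = 1 - x * y := by rw [← h3]; abel
  have hxyx := xyx h1 h3
  have hyxy := yxy h2 h3
  have c1 : g * (x * y) = x * y * g := by
    rw [← mul_assoc, a1, neg_mul, mul_assoc, a2, mul_neg, neg_neg, mul_assoc]
  have g1 : (g + 1) * (g + 1) = (2 : K) • (g + 1) := by
    simp only [mul_add, add_mul, hg, mul_one, one_mul]
    module
  have g2 : (g - 1) * (g - 1) = -((2 : K) • (g - 1)) := by
    simp only [mul_sub, sub_mul, hg, mul_one, one_mul]
    module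
  have g3 : (1 - g) * (g - 1) = (2 : K) • (g - 1) := by
    simp only [mul_sub, sub_mul, hg, mul_one, one_mul]
    module
  have g4 : (1 - g) * (g + 1) = 0 := by
    simp only [mul_add, sub_mul, hg, mul_one, one_mul]
    abel
  have g5 : (1 + g) * (g - 1) = 0 := by
    simp only [mul_sub, add_mul, hg, mul_one, one_mul]
    abel
  have b1 : (g + 1) * x = x * (1 - g) := by
    rw [add_mul, a1, one_mul, mul_sub, mul_one]; abel
  have b2 : (g - 1) * y = -(y * (g + 1)) := by
    rw [sub_mul, a2, one_mul, mul_add, mul_one]; abel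
  have b3 : (g + 1) * y = y * (1 - g) := by
    rw [add_mul, a2, one_mul, mul_sub, mul_one]; abel
  have b4 : (g - 1) * x = -(x * (g + 1)) := by
    rw [sub_mul, a1, one_mul, mul_add, mul_one]; abel
  have h22 : (2 : K)⁻¹ * (2 : K)⁻¹ * 2 = (2 : K)⁻¹ := by field_simp
  have e2 : 1 - (2 : K)⁻¹ • (1 + g) = (2 : K)⁻¹ • (1 - g) := by
    have : (1 : Matrix m m K) = ((2 : K)⁻¹ * 2) • 1 := by
      rw [inv_mul_cancel₀ two_ne_zero, one_smul]
    conv_lhs => rw [this]
    module
  refine step_pair14 (E := x * ((2 : K)⁻¹ • (g + 1))) (F := y * ((2 : K)⁻¹ • (g - 1)))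
    ?_ ?_ ?_ ?_ ?_ ?_ ?_ (hyp_idem h1 h3) ?_ hmem hE hF
  · calc x * ((2 : K)⁻¹ • (g + 1)) * (x * y) = (2 : K)⁻¹ • (x * ((g + 1) * x) * y) := by
          simp only [mul_smul_comm, smul_mul_assoc, mul_assoc]
      _ = (2 : K)⁻¹ • (x * x * (1 - g) * y) := by rw [b1]; simp only [mul_assoc]
      _ = 0 := by rw [h1, zero_mul, zero_mul, smul_zero]
  · calc y * ((2 : K)⁻¹ • (g - 1)) * (x * y) = (2 : K)⁻¹ • (y * ((g - 1) * (x * y))) := by
          simp only [mul_smul_comm, smul_mul_assoc, mul_assoc]
      _ = (2 : K)⁻¹ • (y * x * y * (g - 1)) := by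
          rw [sub_mul, c1, one_mul]
          simp only [mul_sub, mul_one, mul_assoc]
      _ = _ := by rw [hyxy, mul_smul_comm]
  · calc x * ((2 : K)⁻¹ • (g + 1)) * (y * ((2 : K)⁻¹ • (g - 1)))
        = ((2 : K)⁻¹ * (2 : K)⁻¹) • (x * ((g + 1) * y) * (g - 1)) := by
          simp only [mul_smul_comm, smul_mul_assoc, mul_assoc, smul_smul]
      _ = ((2 : K)⁻¹ * (2 : K)⁻¹) • (x * y * ((1 - g) * (g - 1))) := by
          rw [b3]; simp only [mul_assoc]
      _ = ((2 : K)⁻¹ * (2 : K)⁻¹ * 2) • (x * y * (g - 1)) := by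
          rw [g3, mul_smul_comm, smul_smul]
      _ = _ := by
          rw [h22, e2, mul_smul_comm, ← smul_neg, ← mul_neg, neg_sub]
  · calc (2 : K)⁻¹ • (1 + g) * (x * ((2 : K)⁻¹ • (g + 1)))
        = ((2 : K)⁻¹ * (2 : K)⁻¹) • (((g + 1) * x) * (g + 1)) := by
          rw [add_comm 1 g]
          simp only [mul_smul_comm, smul_mul_assoc, mul_assoc, smul_smul]
      _ = 0 := by rw [b1, mul_assoc, g4, mul_zero, smul_zero]
  · calc (2 : K)⁻¹ • (1 + g) * (y * ((2 : K)⁻¹ • (g - 1)))
        = ((2 : K)⁻¹ * (2 : K)⁻¹) • (((g + 1) * y) * (g - 1)) := by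
          rw [add_comm 1 g]
          simp only [mul_smul_comm, smul_mul_assoc, mul_assoc, smul_smul]
      _ = ((2 : K)⁻¹ * (2 : K)⁻¹ * 2) • (y * (g - 1)) := by
          rw [b3, mul_assoc, g3, mul_smul_comm, smul_smul]
      _ = _ := by rw [h22, mul_smul_comm]
  · calc y * ((2 : K)⁻¹ • (g - 1)) * (x * ((2 : K)⁻¹ • (g + 1)))
        = ((2 : K)⁻¹ * (2 : K)⁻¹) • (y * ((g - 1) * x) * (g + 1)) := by
          simp only [mul_smul_comm, smul_mul_assoc, mul_assoc, smul_smul]
      _ = -(((2 : K)⁻¹ * (2 : K)⁻¹) • (y * x * ((g + 1) * (g + 1)))) := by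
          rw [b4]; simp only [mul_assoc, mul_neg, neg_mul, smul_neg]
      _ = -(((2 : K)⁻¹ * (2 : K)⁻¹ * 2) • (y * x * (g + 1))) := by
          rw [g1, mul_smul_comm, smul_smul]
      _ = _ := by rw [h22, e1, mul_smul_comm, add_comm g 1]
  · rw [mul_smul_comm, smul_mul_assoc, mul_add, add_mul, c1, mul_one, one_mul]
  · rw [mul_smul_comm, smul_mul_assoc, smul_smul, add_comm 1 g, g1, smul_smul, h22]

/-! ### The normalised subspace -/

/-- Vectors and bivectors. -/
def LV (V : Submodule K (Matrix m m K)) : Submodule K (Matrix m m K) := V * V ⊔ V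

theorem nrm_of14 {V : Submodule K (Matrix m m K)} {g g' : Matrix m m K}
    (hgg : g' * g = 1) (hV : ∀ v ∈ V, g * v * g' ∈ V) : ∀ X ∈ LV V, g * X * g' ∈ LV V := by
  intro X hX
  obtain ⟨A, hA, v, hv, rfl⟩ := Submodule.mem_sup.mp hX
  rw [mul_add, add_mul]
  refine Submodule.add_mem_sup ?_ (hV v hv)
  clear hX
  induction hA using Submodule.mul_induction_on' with
  | mem_mul_mem v hv w hw =>
    have e : g * (v * w) * g' = (g * v * g') * (g * w * g') := by
      calc g * (v * w) * g' = g * v * 1 * w * g' := by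
            rw [mul_one]; simp only [mul_assoc]
        _ = _ := by rw [← hgg]; simp only [mul_assoc]
    rw [e]
    exact Submodule.mul_mem_mul (hV v hv) (hV w hw)
  | add a _ b _ ha' hb' =>
    rw [mul_add, add_mul]
    exact Submodule.add_mem _ ha' hb'

/-- The extra Eichler transformations normalise the subspace. -/
theorem nrm_extra14 {V : Submodule K (Matrix m m K)} (hV : IsCliff V) {x : Matrix m m K}
    (hx : x ∈ V) (h1 : x * x = 0) (t : K) :
    ∀ X ∈ LV V, (1 + t • x) * X * (1 - t • x) ∈ LV V := by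
  have hVl : V ≤ LV V := le_sup_right
  have hVVl : V * V ≤ LV V := le_sup_left
  have key : ∀ X : Matrix m m K, (1 + t • x) * X * (1 - t • x) =
      X + t • (x * X - X * x) - (t * t) • (x * X * x) := by
    intro X
    simp only [add_mul, mul_sub, one_mul, mul_one, smul_mul_assoc, mul_smul_comm]
    module
  intro X hX
  obtain ⟨A, hA, v, hv, rfl⟩ := Submodule.mem_sup.mp hX
  rw [mul_add, add_mul]
  apply Submodule.add_mem
  · clear hX
    induction hA using Submodule.mul_induction_on' with
    | mem_mul_mem v hv w hw =>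
      obtain ⟨c, hc⟩ := hV x hx v hv
      obtain ⟨c', hc'⟩ := hV x hx w hw
      have e1 : x * v = c • 1 - v * x := by rw [← hc]; abel
      have e2 : w * x = c' • 1 - x * w := by rw [← hc']; abel
      have e3 : x * w * x = c' • x := by
        rw [mul_assoc, e2, mul_sub, ← mul_assoc, h1, zero_mul, sub_zero, mul_smul_comm, mul_one]
      have f1 : x * (v * w) - v * w * x = c • w - c' • v := by
        rw [← mul_assoc, e1, mul_assoc v w x, e2]
        simp only [sub_mul, mul_sub, smul_mul_assoc, mul_smul_comm, one_mul, mul_one, mul_assoc]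
        abel
      have f2 : x * (v * w) * x = c • (w * x) - c' • (v * x) := by
        rw [← mul_assoc, e1, sub_mul, sub_mul, smul_mul_assoc, one_mul, smul_mul_assoc,
          mul_assoc v x w, mul_assoc v (x * w) x, e3, mul_smul_comm]
      rw [key, f1, f2]
      refine Submodule.sub_mem _ (Submodule.add_mem _ (hVVl (Submodule.mul_mem_mul hv hw))
        (Submodule.smul_mem _ _ (Submodule.sub_mem _ (Submodule.smul_mem _ _ (hVl hw))
          (Submodule.smul_mem _ _ (hVl hv))))) (Submodule.smul_mem _ _ (Submodule.sub_mem _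
            (Submodule.smul_mem _ _ (hVVl (Submodule.mul_mem_mul hw hx)))
            (Submodule.smul_mem _ _ (hVVl (Submodule.mul_mem_mul hv hx)))))
    | add a _ b _ ha' hb' =>
      rw [mul_add, add_mul]
      exact Submodule.add_mem _ ha' hb'
  · obtain ⟨c, hc⟩ := hV x hx v hv
    have e1 : v * x = c • 1 - x * v := by rw [← hc]; abel
    have e3 : x * v * x = c • x := by
      rw [mul_assoc, e1, mul_sub, ← mul_assoc, h1, zero_mul, sub_zero, mul_smul_comm, mul_one]
    rw [key, e3]
    exact Submodule.sub_mem _ (Submodule.add_mem _ (hVl hv) (Submodule.smul_mem _ _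
      (Submodule.sub_mem _ (hVVl (Submodule.mul_mem_mul hx hv))
        (hVVl (Submodule.mul_mem_mul hv hx))))) (Submodule.smul_mem _ _
          (Submodule.smul_mem _ _ (hVl hx)))

theorem ED_nrm14 [CharZero K] {V : Submodule K (Matrix m m K)} (hV : IsCliff V)
    {x y : Matrix m m K} (hx : x ∈ V) (hy : y ∈ V) (h1 : x * x = 0) (h2 : y * y = 0) :
    ED V x y ≤ Nrm (LV V) := by
  rw [ED, Subgroup.closure_le, Set.union_subset_iff]
  constructor
  · have key : ∀ x ∈ V, x * x = 0 → ∀ w ∈ V, w * x + x * w = 0 →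
        ∀ u : Matrix.GeneralLinearGroup m K, (u : Matrix m m K) = 1 + x * w →
        u ∈ Nrm (LV V) := by
      intro x hx h1 w hw hwx u hu X hX
      rw [val_inv hu (eich_sq h1 hwx), hu]
      exact nrm_of14 (one_sub_mul (eich_sq h1 hwx)) (fun v hv => eich_V hV hx hw hv h1 hwx) X hX
    rintro u ⟨w, hw, hwx, hwy, hu | hu⟩
    · exact key x hx h1 w hw hwx u hu
    · exact key y hy h2 w hw hwy u hu
  · have hz : ∀ (z : Matrix m m K), z * z = 0 → ∀ t : K, (t • z) * (t • z) = 0 := by
      intro z hz t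
      rw [smul_mul_assoc, mul_smul_comm, hz, smul_zero, smul_zero]
    rintro u ⟨t, hu | hu⟩
    · intro X hX
      rw [val_inv hu (hz x h1 t), hu]
      exact nrm_extra14 hV hx h1 t X hX
    · intro X hX
      rw [val_inv hu (hz y h2 t), hu]
      exact nrm_extra14 hV hy h2 t X hX

/-- The torus of a hyperbolic pair normalises the subspace. -/
theorem torus_nrm14 {V : Submodule K (Matrix m m K)} (hV : IsCliff V) {x y : Matrix m m K}
    (hx : x ∈ V) (hy : y ∈ V) (h1 : x * x = 0) (h2 : y * y = 0) (h3 : x * y + y * x = 1) :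
    IsCochar (Nrm (LV V)) (x * y) := by
  have hPP := hyp_idem h1 h3
  refine ⟨hPP, fun t ht => ⟨⟨t • (x * y) + (1 - x * y), t⁻¹ • (x * y) + (1 - x * y),
    torus_mul hPP ht, by
    have := torus_mul hPP (inv_ne_zero ht)
    rwa [inv_inv] at this⟩, ?_, rfl⟩⟩
  have ha := torus_mul hPP ht
  have hb : (t⁻¹ • (x * y) + (1 - x * y)) * (t • (x * y) + (1 - x * y)) = 1 := by
    have := torus_mul hPP (inv_ne_zero ht)
    rwa [inv_inv] at this
  have key : ∀ v ∈ V, (t • (x * y) + (1 - x * y)) * v * (t⁻¹ • (x * y) + (1 - x * y)) ∈ V := by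
    intro v hv
    obtain ⟨α, hα⟩ := hV v hv y hy
    obtain ⟨β, hβ⟩ := hV v hv x hx
    set g := t • (x * y) + (1 - x * y) with hg
    set g' := t⁻¹ • (x * y) + (1 - x * y) with hg'
    have c1 : g * x = t • x := by
      rw [hg, add_mul, smul_mul_assoc, sub_mul, one_mul, xyx h1 h3, sub_self, add_zero]
    have c2 : x * g' = x := by
      rw [hg', mul_add, mul_smul_comm, mul_sub, mul_one, ← mul_assoc, h1, zero_mul, smul_zero,
        sub_zero, zero_add]
    have c3 : g * y = y := by
      rw [hg, add_mul, smul_mul_assoc, sub_mul, one_mul, mul_assoc, h2, mul_zero, smul_zero,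
        sub_zero, zero_add]
    have c4 : y * g' = t⁻¹ • y := by
      rw [hg', mul_add, mul_smul_comm, mul_sub, mul_one, ← mul_assoc, yxy h2 h3, sub_self,
        add_zero]
    set u := v - α • x - β • y with hu
    have d1 : u * x + x * u = 0 := by
      calc u * x + x * u = (v * x + x * v) - α • (x * x + x * x) - β • (x * y + y * x) := by
            rw [hu]
            simp only [sub_mul, mul_sub, smul_mul_assoc, mul_smul_comm]
            module
        _ = 0 := by rw [hβ, h1, h3]; simp
    have d2 : u * y + y * u = 0 := by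
      calc u * y + y * u = (v * y + y * v) - α • (x * y + y * x) - β • (y * y + y * y) := by
            rw [hu]
            simp only [sub_mul, mul_sub, smul_mul_assoc, mul_smul_comm]
            module
        _ = 0 := by rw [hα, h2, h3]; simp
    have f1 : u * x = -(x * u) := eq_neg_of_add_eq_zero_left d1
    have f2 : u * y = -(y * u) := eq_neg_of_add_eq_zero_left d2
    have f3 : u * (x * y) = x * y * u := by
      rw [← mul_assoc, f1, neg_mul, mul_assoc, f2, mul_neg, neg_neg, mul_assoc]
    have e : v = u + α • x + β • y := by rw [hu]; abel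
    have hmem : u ∈ V := V.sub_mem (V.sub_mem hv (V.smul_mem _ hx)) (V.smul_mem _ hy)
    clear_value u
    have f4 : g * u * g' = u := by
      have : g * u = u * g := by
        rw [hg, add_mul, mul_add, smul_mul_assoc, mul_smul_comm, f3, sub_mul, mul_sub, f3,
          one_mul, mul_one]
      rw [this, mul_assoc, ha, mul_one]
    clear_value g g'
    have e2 : g * v * g' = u + (α * t) • x + (β * t⁻¹) • y := by
      rw [e, mul_add, mul_add, add_mul, add_mul, f4, mul_smul_comm, mul_smul_comm, c1, c3,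
        smul_mul_assoc, smul_mul_assoc, smul_mul_assoc, c2, c4, smul_smul, smul_smul]
    rw [e2]
    exact V.add_mem (V.add_mem hmem (V.smul_mem _ hx)) (V.smul_mem _ hy)
  exact fun X hX => nrm_of14 hb key X hX

/-- The whole group normalises the subspace. -/
theorem gen_nrm14 [CharZero K] {V : Submodule K (Matrix m m K)} (hV : IsCliff V)
    {x y : Matrix m m K} (hx : x ∈ V) (hy : y ∈ V) (h1 : x * x = 0) (h2 : y * y = 0)
    (h3 : x * y + y * x = 1) : GenG (OrbN (ED V x y) (x * y)) ≤ Nrm (LV V) := by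
  apply GenG_le (Nrm_closed _)
  rintro _ ⟨h, hh, rfl⟩
  obtain ⟨k1, k2⟩ := torus_nrm14 hV hx hy h1 h2 h3
  have hhN := ED_nrm14 hV hx hy h1 h2 hh
  refine ⟨?_, fun t ht => ?_⟩
  · calc (h : Matrix m m K) * (x * y) * ((h⁻¹ : Matrix.GeneralLinearGroup m K) : Matrix m m K) *
          ((h : Matrix m m K) * (x * y) *
          ((h⁻¹ : Matrix.GeneralLinearGroup m K) : Matrix m m K))
        = (h : Matrix m m K) * (x * y) * (((h⁻¹ : Matrix.GeneralLinearGroup m K) :
          Matrix m m K) * (h : Matrix m m K)) * (x * y) *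
          ((h⁻¹ : Matrix.GeneralLinearGroup m K) : Matrix m m K) := by
          simp only [mul_assoc]
      _ = _ := by rw [GL_inv_mul, mul_one, mul_assoc (h : Matrix m m K), k1]
  · obtain ⟨g, hg, hgt⟩ := k2 t ht
    refine ⟨h * g * h⁻¹, Subgroup.mul_mem _ (Subgroup.mul_mem _ hhN hg)
      (Subgroup.inv_mem _ hhN), ?_⟩
    rw [Units.val_mul, Units.val_mul, hgt, mul_add, add_mul, mul_smul_comm, smul_mul_assoc,
      mul_sub, sub_mul, mul_one, GL_mul_inv]

end rel

end PR
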