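import Pool.Agent.Helper14.PT.SpN

/-!
The half spin groups: the diagonal idempotents, and the comparison with the symplectic group.
-/

set_option linter.unusedSectionVars false
set_option linter.unusedVariables false

open Module MTPairs MTP TRSpin

namespace PR

section spin
variable {K : Type*} [Field K] {k : ℕ}

/-- The local idempotents are in the orbit. -/
theorem orb_loc14 [CharZero K] {H : Subgroup (Matrix.GeneralLinearGroup (Sx (k + 2)) K)}
    (hH : EN (VS K (k + 2)) (x0 K k) (y0 K k) ≤ H) (i : Fin (k + 2)) :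
    loc i (cm K * am K) ∈ OrbN H (x0 K k * y0 K k) ∧
      loc i (am K * cm K) ∈ OrbN H (x0 K k * y0 K k) := by
  have sq : ∀ (i : Fin (k + 2)) (B : Matrix (Fin 2) (Fin 2) K), B ∈ AC K →
      jw i B * jw i B = 0 := by
    intro i B hB
    rw [jw_mul_same]
    rcases hB with rfl | rfl
    · rw [am_sq, loc_zero]
    · rw [cm_sq, loc_zero]
  have ca : ∀ i : Fin (k + 2), jw i (cm K) * jw i (am K) + jw i (am K) * jw i (cm K) = 1 := by
    intro i
    rw [jw_mul_same, jw_mul_same, ← loc_add, cm_am, loc_one]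
  have ac : ∀ i : Fin (k + 2), jw i (am K) * jw i (cm K) + jw i (cm K) * jw i (am K) = 1 := by
    intro i
    exact (add_comm _ _).trans (ca i)
  have an : ∀ {i j : Fin (k + 2)}, i ≠ j → ∀ {B C : Matrix (Fin 2) (Fin 2) K}, B ∈ AC K →
      C ∈ AC K → jw i B * jw j C = -(jw j C * jw i B) := fun h _ _ hB hC => jw_anti' h hB hC
  have mkx : ∀ w ∈ VS K (k + 2), w * x0 K k + x0 K k * w = 0 → w * y0 K k + y0 K k * w = 0 →
      ∃ u ∈ H, (u : Matrix (Sx (k + 2)) (Sx (k + 2)) K) = 1 + x0 K k * w := by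
    intro w hw hwx hwy
    obtain ⟨u, hu⟩ := unip_ex (eich_sq x0_sq hwx)
    exact ⟨u, hH (Subgroup.subset_closure ⟨w, hw, hwx, hwy, Or.inl hu⟩), hu⟩
  have mky : ∀ w ∈ VS K (k + 2), w * x0 K k + x0 K k * w = 0 → w * y0 K k + y0 K k * w = 0 →
      ∃ u ∈ H, (u : Matrix (Sx (k + 2)) (Sx (k + 2)) K) = 1 + y0 K k * w := by
    intro w hw hwx hwy
    obtain ⟨u, hu⟩ := unip_ex (eich_sq y0_sq hwy)
    exact ⟨u, hH (Subgroup.subset_closure ⟨w, hw, hwx, hwy, Or.inr hu⟩), hu⟩
  have h0 : ∀ i : Fin (k + 2), i ≠ 0 → jw i (cm K) * jw i (am K) ∈ OrbN H (x0 K k * y0 K k) ∧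
      jw i (am K) * jw i (cm K) ∈ OrbN H (x0 K k * y0 K k) := by
    intro i hi
    constructor
    · refine pair_step14 x0_sq y0_sq x0_y0 (sq i _ mem_cm) (sq i _ mem_am) (ca i)
        (an hi mem_cm mem_cm) (an hi mem_cm mem_am) (an hi mem_am mem_cm) (an hi mem_am mem_am)
        (OrbN_self _ _) (mkx _ (jw_mem i mem_am) (jw_orth hi mem_am mem_cm)
          (jw_orth hi mem_am mem_am)) (mky _ (jw_mem i mem_cm) (jw_orth hi mem_cm mem_cm)
          (jw_orth hi mem_cm mem_am))
    · refine pair_step14 x0_sq y0_sq x0_y0 (sq i _ mem_am) (sq i _ mem_cm) (ac i)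
        (an hi mem_am mem_cm) (an hi mem_am mem_am) (an hi mem_cm mem_cm) (an hi mem_cm mem_am)
        (OrbN_self _ _) (mkx _ (jw_mem i mem_cm) (jw_orth hi mem_cm mem_cm)
          (jw_orth hi mem_cm mem_am)) (mky _ (jw_mem i mem_am) (jw_orth hi mem_am mem_cm)
          (jw_orth hi mem_am mem_am))
  by_cases hi : i = 0
  · subst hi
    rw [← jw_mul_same, ← jw_mul_same]
    refine ⟨OrbN_self _ _, ?_⟩
    have h1 := one_ne (k := k)
    have h1' : (0 : Fin (k + 2)) ≠ 1 := fun h => h1 h.symm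
    refine pair_step14 (x := jw 1 (cm K)) (y := jw 1 (am K)) (sq 1 _ mem_cm) (sq 1 _ mem_am)
      (ca 1) (sq 0 _ mem_am) (sq 0 _ mem_cm) (ac 0) (an h1' mem_am mem_cm)
      (an h1' mem_am mem_am) (an h1' mem_cm mem_cm) (an h1' mem_cm mem_am) (h0 1 h1).1 ?_ ?_
    · obtain ⟨u, hu, e⟩ := mkx (-jw 1 (cm K)) (Submodule.neg_mem _ (jw_mem 1 mem_cm))
        (by rw [neg_mul, mul_neg, ← neg_add, jw_orth h1 mem_cm mem_cm, neg_zero])
        (by rw [neg_mul, mul_neg, ← neg_add, jw_orth h1 mem_cm mem_am, neg_zero])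
      refine ⟨u, hu, ?_⟩
      rw [e, an h1 mem_cm mem_cm, mul_neg]
    · obtain ⟨u, hu, e⟩ := mky (-jw 1 (am K)) (Submodule.neg_mem _ (jw_mem 1 mem_am))
        (by rw [neg_mul, mul_neg, ← neg_add, jw_orth h1 mem_am mem_cm, neg_zero])
        (by rw [neg_mul, mul_neg, ← neg_add, jw_orth h1 mem_am mem_am, neg_zero])
      refine ⟨u, hu, ?_⟩
      rw [e, an h1 mem_am mem_am, mul_neg]
  · rw [← jw_mul_same, ← jw_mul_same]
    exact h0 i hi

/-- The idempotents of the extra dimension are in the orbit of the extended group. -/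
theorem orb_g14 [CharZero K] {g : Matrix (Sx (k + 2)) (Sx (k + 2)) K} (hg : g = g0 K (k + 2) ∨
    g = -g0 K (k + 2)) : (2 : K)⁻¹ • (1 + g) ∈
      OrbN (ED (VS K (k + 2)) (x0 K k) (y0 K k)) (x0 K k * y0 K k) := by
  set V := VS K (k + 2) with hV
  have hgV : g ∈ V := by
    rcases hg with rfl | rfl
    · exact g0_mem
    · exact Submodule.neg_mem _ g0_mem
  have hgg : g * g = 1 := by
    rcases hg with rfl | rfl
    · exact g0_sq
    · rw [neg_mul_neg, g0_sq]
  have ax : g * x0 K k + x0 K k * g = 0 := by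
    rcases hg with rfl | rfl
    · exact g0_orth 0 mem_cm
    · rw [neg_mul, mul_neg, ← neg_add, g0_orth 0 mem_cm, neg_zero]
  have ay : g * y0 K k + y0 K k * g = 0 := by
    rcases hg with rfl | rfl
    · exact g0_orth 0 mem_am
    · rw [neg_mul, mul_neg, ← neg_add, g0_orth 0 mem_am, neg_zero]
  have hz : ∀ (z : Matrix (Sx (k + 2)) (Sx (k + 2)) K), z * z = 0 → ∀ t : K,
      (t • z) * (t • z) = 0 := by
    intro z hz t
    rw [smul_mul_assoc, mul_smul_comm, hz, smul_zero, smul_zero]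
  have hgx : (2 : K)⁻¹ • g * x0 K k + x0 K k * ((2 : K)⁻¹ • g) = 0 := by
    rw [smul_mul_assoc, mul_smul_comm, ← smul_add, ax, smul_zero]
  have hgy : (2 : K)⁻¹ • g * y0 K k + y0 K k * ((2 : K)⁻¹ • g) = 0 := by
    rw [smul_mul_assoc, mul_smul_comm, ← smul_add, ay, smul_zero]
  refine extra_step14 x0_sq y0_sq x0_y0 hgg (eq_neg_of_add_eq_zero_left ax)
    (eq_neg_of_add_eq_zero_left ay) (OrbN_self _ _) ?_ ?_
  · obtain ⟨u, hu⟩ := unip_ex (eich_sq x0_sq hgx)
    have hu' : u ∈ ED V (x0 K k) (y0 K k) := Subgroup.subset_closure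
      (Or.inl ⟨_, V.smul_mem _ hgV, hgx, hgy, Or.inl hu⟩)
    obtain ⟨w, hw⟩ : ∃ w : Matrix.GeneralLinearGroup (Sx (k + 2)) K,
        (w : Matrix (Sx (k + 2)) (Sx (k + 2)) K) = 1 + (2 : K)⁻¹ • x0 K k :=
      ⟨⟨_, _, one_add_mul (hz _ x0_sq _), one_sub_mul (hz _ x0_sq _)⟩, rfl⟩
    have hw' : w ∈ ED V (x0 K k) (y0 K k) := Subgroup.subset_closure
      (Or.inr ⟨_, Or.inl hw⟩)
    refine ⟨u * w, Subgroup.mul_mem _ hu' hw', ?_⟩
    have e : x0 K k * ((2 : K)⁻¹ • g) * ((2 : K)⁻¹ • x0 K k) = 0 := by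
      have : g * x0 K k = -(x0 K k * g) := eq_neg_of_add_eq_zero_left ax
      rw [mul_smul_comm, mul_smul_comm, smul_mul_assoc, mul_assoc, this, mul_neg, ← mul_assoc,
        x0_sq, zero_mul, neg_zero, smul_zero, smul_zero]
    rw [Units.val_mul, hu, hw, add_mul, one_mul, mul_add, mul_one, e, add_zero, smul_add,
      mul_add, mul_smul_comm _ (x0 K k) 1, mul_one]
    abel
  · obtain ⟨u, hu⟩ := unip_ex (eich_sq y0_sq hgy)
    have hu' : u ∈ ED V (x0 K k) (y0 K k) := Subgroup.subset_closure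
      (Or.inl ⟨_, V.smul_mem _ hgV, hgx, hgy, Or.inr hu⟩)
    obtain ⟨w, hw⟩ : ∃ w : Matrix.GeneralLinearGroup (Sx (k + 2)) K,
        (w : Matrix (Sx (k + 2)) (Sx (k + 2)) K) = 1 + (-(2 : K)⁻¹) • y0 K k :=
      ⟨⟨_, _, one_add_mul (hz _ y0_sq _), one_sub_mul (hz _ y0_sq _)⟩, rfl⟩
    have hw' : w ∈ ED V (x0 K k) (y0 K k) := Subgroup.subset_closure
      (Or.inr ⟨_, Or.inr hw⟩)
    refine ⟨u * w, Subgroup.mul_mem _ hu' hw', ?_⟩
    have e : y0 K k * ((2 : K)⁻¹ • g) * ((-(2 : K)⁻¹) • y0 K k) = 0 := by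
      have : g * y0 K k = -(y0 K k * g) := eq_neg_of_add_eq_zero_left ay
      rw [mul_smul_comm, mul_smul_comm, smul_mul_assoc, mul_assoc, this, mul_neg, ← mul_assoc,
        y0_sq, zero_mul, neg_zero, smul_zero, smul_zero]
    rw [Units.val_mul, hu, hw, add_mul, one_mul, mul_add, mul_one, e, add_zero, smul_sub,
      mul_sub, mul_smul_comm _ (y0 K k) 1, mul_one, neg_smul]
    abel

theorem LV_far {X : Matrix (Sx k) (Sx k) K} (hX : X ∈ LV (VS K k)) {p q : Sx k}
    (h : 2 < hammingDist p q) : X p q = 0 := by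
  obtain ⟨A, hA, v, hv, rfl⟩ := Submodule.mem_sup.mp hX
  rw [Matrix.add_apply, VV_far hA h, VS_far hv (by omega), add_zero]

/-- The group is not the whole symplectic group. -/
theorem not_full14 [CharZero K] {n : ℕ} (hk : n = k + 2) (hn : n % 4 = 1 ∨ n % 4 = 2)
    (hn5 : 5 ≤ n) {H : Subgroup (Matrix.GeneralLinearGroup (Sx (k + 2)) K)}
    (hH : H ≤ ED (VS K (k + 2)) (x0 K k) (y0 K k)) :
    ∃ g : Matrix.GeneralLinearGroup (Sx (k + 2)) K,
      (∃ c : K, (g : Matrix (Sx (k + 2)) (Sx (k + 2)) K).transpose * JS K (k + 2) *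
        (g : Matrix (Sx (k + 2)) (Sx (k + 2)) K) = c • JS K (k + 2)) ∧
      g ∉ GenG (OrbN H (x0 K k * y0 K k)) := by
  subst hk
  have hJt : (JS K (k + 2)).transpose = -JS K (k + 2) := JS_t hn
  set z : Sx (k + 2) := fun _ => 0 with hz
  set w : Sx (k + 2) := fun _ => 1 with hw
  have hzw' : w ≠ z := by
    intro h
    have := congrFun h 0
    simp [hz, hw] at this
  set N : Matrix (Sx (k + 2)) (Sx (k + 2)) K := Matrix.single z w 1 with hN
  have hNN : N * N = 0 := Matrix.single_mul_single_of_ne _ _ _ _ hzw' _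
  have hleft : ∀ (A : Matrix (Sx (k + 2)) (Sx (k + 2)) K) y, (N * A) z y = A w y := by
    intro A y
    rw [Matrix.mul_apply, Finset.sum_eq_single w]
    · simp [hN]
    · intro b _ hb
      simp [hN, Matrix.single_apply, Ne.symm hb]
    · intro h; exact absurd (Finset.mem_univ _) h
  have hright : ∀ (A : Matrix (Sx (k + 2)) (Sx (k + 2)) K) x y,
      (A * N) x y = if y = w then A x z else 0 := by
    intro A x y
    rw [Matrix.mul_apply, Finset.sum_eq_single z]
    · by_cases h : y = w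
      · subst h; simp [hN]
      · simp [hN, Matrix.single_apply, h, Ne.symm h]
    · intro b _ hb
      simp [hN, Matrix.single_apply, Ne.symm hb]
    · intro h; exact absurd (Finset.mem_univ _) h
  have hJf : ∀ (l : ℕ) (a : Fin 2), a ≠ 1 → Jf K l a 0 = 0 := by
    intro l a ha
    have ha0 : a = 0 := by omega
    subst ha0
    unfold Jf
    split_ifs <;> simp [Xm, Ym]
  have hJ : ∀ x, x ≠ w → JS K (k + 2) x z = 0 := by
    intro x hx
    obtain ⟨i, hi⟩ := Function.ne_iff.mp hx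
    exact Finset.prod_eq_zero (Finset.mem_univ i) (hJf _ _ hi)
  have hsym : (JS K (k + 2) * N).transpose = JS K (k + 2) * N := by
    ext x y
    rw [Matrix.transpose_apply, hright, hright]
    by_cases hx : x = w <;> by_cases hy : y = w
    · rw [hx, hy]
    · rw [if_pos hx, if_neg hy, hJ y hy]
    · rw [if_neg hx, if_pos hy, hJ x hx]
    · rw [if_neg hx, if_neg hy]
  have hsp : N.transpose * JS K (k + 2) + JS K (k + 2) * N = 0 := by
    rw [Matrix.transpose_mul, hJt, mul_neg] at hsym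
    rw [← hsym]; abel
  refine ⟨⟨1 + N, 1 - N, one_add_mul hNN, one_sub_mul hNN⟩, ⟨1, ?_⟩, ?_⟩
  · rw [one_smul]
    exact isom_one_add hNN hsp
  · intro ht
    have hle : GenG (OrbN H (x0 K k * y0 K k)) ≤ Nrm (LV (VS K (k + 2))) :=
      (GenG_mono14 (OrbN_mono14 hH _)).trans
        (gen_nrm14 VS_cliff (jw_mem 0 mem_cm) (jw_mem 0 mem_am) x0_sq y0_sq x0_y0)
    set P0 := x0 K k * y0 K k with hP0
    have hP0v : P0 ∈ LV (VS K (k + 2)) :=
      (le_sup_left : VS K (k + 2) * VS K (k + 2) ≤ LV (VS K (k + 2)))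
        (Submodule.mul_mem_mul (jw_mem 0 mem_cm) (jw_mem 0 mem_am))
    have hZ := hle ht P0 hP0v
    change (1 + N) * P0 * (1 - N) ∈ LV (VS K (k + 2)) at hZ
    have hd : hammingDist z w = k + 2 := by
      rw [hammingDist]
      have : Finset.univ.filter (fun i => z i ≠ w i) = Finset.univ := by
        ext i; simp [hz, hw]
      rw [this, Finset.card_univ, Fintype.card_fin]
    have hfar := LV_far hZ (p := z) (q := w) (by rw [hd]; omega)
    have e : (1 + N) * P0 * (1 - N) = P0 + N * P0 - P0 * N - N * (P0 * N) := by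
      simp only [add_mul, mul_sub, one_mul, mul_one, mul_assoc]
      abel
    have a1 : P0 z w = 0 := LV_far hP0v (by rw [hd]; omega)
    have hP0d : P0 = loc 0 (cm K * am K) := by rw [hP0, jw_mul_same]
    have a2 : P0 w w = 1 := by
      rw [hP0d, loc_apply, if_pos (fun _ _ => rfl), mul_one]
      simp [hw, cm, am, Matrix.mul_apply, Fin.sum_univ_two]
    have a3 : P0 z z = 0 := by
      rw [hP0d, loc_apply, if_pos (fun _ _ => rfl), mul_one]
      simp [hz, cm, am, Matrix.mul_apply, Fin.sum_univ_two]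
    have a4 : P0 w z = 0 := LV_far hP0v (by rw [hammingDist_comm, hd]; omega)
    rw [e, Matrix.sub_apply, Matrix.sub_apply, Matrix.add_apply, hleft, hleft, hright, hright,
      if_pos rfl, if_pos rfl, a1, a2, a3, a4] at hfar
    norm_num at hfar

/-! ### Diagonal forms -/

/-- The sign of a component. -/
def sg1 (a : Fin 2) : ℤ := if a = 0 then 1 else -1

/-- The signs of the weights. -/
def sg {n : ℕ} (p : Sx n) : Fin (n + 1) → ℤ := Fin.cases (∏ i, sg1 (p i)) (fun i => sg1 (p i))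

theorem sg1_or (a : Fin 2) : sg1 a = 1 ∨ sg1 a = -1 := by
  unfold sg1
  split_ifs
  · exact Or.inl rfl
  · exact Or.inr rfl

theorem sg_or {n : ℕ} (p : Sx n) (j : Fin (n + 1)) : sg p j = 1 ∨ sg p j = -1 := by
  refine Fin.cases ?_ (fun i => ?_) j
  · change (∏ i, sg1 (p i)) = 1 ∨ (∏ i, sg1 (p i)) = -1
    refine Finset.prod_induction (fun i => sg1 (p i)) (fun a => a = 1 ∨ a = -1) ?_ (Or.inl rfl)
      (fun i _ => sg1_or _)
    rintro a b (rfl | rfl) (rfl | rfl) <;> simp
  · exact sg1_or _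

theorem diag_loc14 (i : Fin k) (b : Bool) :
    loc i (if b then am K * cm K else cm K * am K) =
      Matrix.diagonal (fun p : Sx k => if sg p i.succ = (if b then 1 else -1) then (1 : K)
        else 0) := by
  ext p q
  rw [loc_apply]
  have hs : ∀ p : Sx k, sg p i.succ = sg1 (p i) := fun _ => rfl
  have h1 : ∀ a c : Fin 2, (if b then am K * cm K else cm K * am K) a c =
      if a = c then (if sg1 a = (if b then 1 else -1) then (1 : K) else 0) else 0 := by
    intro a c
    fin_cases a <;> fin_cases c <;> cases b <;>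
      simp [am, cm, sg1, Matrix.mul_apply, Fin.sum_univ_two]
  rw [h1, Matrix.diagonal_apply, hs]
  by_cases hpq : p = q
  · subst hpq
    simp
  · rw [if_neg hpq]
    by_cases h2 : p i = q i
    · have h3 : ¬ ∀ j, j ≠ i → p j = q j := by
        intro h
        apply hpq
        funext j
        by_cases hj : j = i
        · rw [hj]; exact h2
        · exact h j hj
      rw [if_neg h3, mul_zero]
    · rw [if_neg h2, zero_mul]

theorem diag_g14 (k : ℕ) : g0 K k = Matrix.diagonal (fun p : Sx k => ((sg p 0 : ℤ) : K)) := by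
  ext p q
  have h1 : ∀ a c : Fin 2, Zm K a c = if a = c then ((sg1 a : ℤ) : K) else 0 := by
    intro a c
    fin_cases a <;> fin_cases c <;> simp [Zm, sg1]
  have hs : sg p 0 = ∏ i, sg1 (p i) := rfl
  rw [Matrix.diagonal_apply, hs, g0, Tn]
  by_cases hpq : p = q
  · subst hpq
    rw [if_pos rfl, Int.cast_prod]
    apply Finset.prod_congr rfl
    intro i _
    rw [h1, if_pos rfl]
  · rw [if_neg hpq]
    obtain ⟨i, hi⟩ := Function.ne_iff.mp hpq
    exact Finset.prod_eq_zero (Finset.mem_univ i) (by rw [h1, if_neg hi])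

end spin

end PR
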