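import Pool.Agent.Helper14.PT.Ind
import Pool.Agent.Helper27.PR.StrA
import Pool.Agent.Helper27.PR.IdM

/-!
The parts of the operator in different minimal ideals are conjugate.
-/

set_option linter.unusedSectionVars false
set_option linter.unusedVariables false

open Module MTP

namespace PR

variable {K : Type*} [Field K] {V : Type*} [AddCommGroup V] [Module K V] [FiniteDimensional K V]
variable {ω : LinearMap.BilinForm K V} {G : Set (Module.End K V)}
  {T : Set (Module.End K V ≃+* Module.End K V)} {p0 : Module.End K V}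

/-- Skew operators have symmetric spectrum. -/
theorem rk_symm14 {X : Module.End K V} (hω : ω.Nondegenerate) (hX : IsSk ω X) (z : K) :
    rk (X - z • 1) = rk (X - (-z) • 1) := by
  rw [← rk_neg (X - (-z) • 1)]
  apply rk_adjoint hω
  intro v w
  have h := hX v w
  simp only [LinearMap.sub_apply, LinearMap.smul_apply, Module.End.one_apply, map_sub, map_smul,
    LinearMap.neg_apply, map_neg, neg_smul, smul_eq_mul] at h ⊢
  rw [h]
  ring

theorem QI.isMin14 {L I : Submodule K (Module.End K V)} {ρ : ℕ} {ε : K} (h : QI ω L ρ ε I) :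
    IsMin L I := ⟨h.1, h.2.1, h.2.2.1⟩

/-- The part of the sum outside an ideal is in the complement. -/
theorem XI_compl14 [IsAlgClosed K] [CharZero K] {L I : Submodule K (Module.End K V)}
    (hL : IrrSymp ω L) (hω : ω.Nondegenerate) {n : ℕ} {c : Fin n → ℕ}
    {s : Fin n → Module.End K V} (hs : ∀ i, s i ∈ L) (hss : ∀ i, s i * s i = 1) (hI : IsId L I) :
    (∑ i, c i • s i) - XI c s I ∈ orth L I := by
  classical
  have h1 : (∑ i, c i • s i) - XI c s I = ∑ i ∈ (AI s I)ᶜ, c i • s i := by
    rw [← Finset.sum_add_sum_compl (AI s I)]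
    unfold XI
    abel
  rw [h1]
  apply Submodule.sum_mem
  intro i hi
  rw [Finset.mem_compl, mem_AI] at hi
  exact nsmul_mem ((hL.inv_dich hω hI (hs i) (hss i)).resolve_left hi) _

/-- The parts in two minimal ideals are conjugate. -/
theorem XI_conj14 [IsAlgClosed K] [CharZero K] (D : WStr ω G T) (hS : TSmp (WL ω G) T)
    {n : ℕ} {c : Fin n → ℕ} {p : Fin n → Module.End K V} (N : Newt G T p0 c p)
    {s : Fin n → Module.End K V} (hsp : ∀ i, s i = (2 : K) • p i - 1)
    (hs : ∀ i, s i ∈ WL ω G) (hss : ∀ i, s i * s i = 1)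
    {I I' : Submodule K (Module.End K V)} (hI : IsMin (WL ω G) I) (hI' : IsMin (WL ω G) I')
    (z : ℤ) : rk (XI c s I - (z : K) • 1) = rk (XI c s I' - (z : K) • 1) := by
  classical
  have hL := D.ctx.irr
  have hω := D.nd
  obtain ⟨τ, hτ, hmap⟩ := trans_min hL hω (fun τ hτ => D.isTw hτ) D.tone D.tmul hS hI hI'
  obtain ⟨g, hg, h, hh, hgh, hhg, hnu⟩ := N.rat τ hτ
  set S := ∑ i, c i • s i with hSdef
  have hSnu : S = (2 : ℕ) • nu c p - (∑ i, c i) • (1 : Module.End K V) := by
    rw [hSdef]
    unfold nu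
    rw [Finset.smul_sum, Finset.sum_smul, ← Finset.sum_sub_distrib]
    apply Finset.sum_congr rfl
    intro i _
    rw [hsp, smul_sub, smul_comm (2 : ℕ), two_smul, two_smul]
  have hST : g * τ S * h = S := by
    have e1 : τ S = (2 : ℕ) • τ (nu c p) - (∑ i, c i) • (1 : Module.End K V) := by
      rw [hSnu, map_sub, map_nsmul, map_nsmul, map_one]
    rw [e1, mul_sub, sub_mul, mul_smul_comm, smul_mul_assoc, hnu, mul_smul_comm,
      smul_mul_assoc, mul_one, hgh, ← hSnu]
  have hR := XI_compl14 (c := c) hL hω hs hss hI.1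
  have hR' := XI_compl14 (c := c) hL hω hs hss hI'.1
  rw [← hSdef] at hR hR'
  -- the images
  have k1 : g * τ (XI c s I) * h ∈ I' :=
    D.id_conj hI'.1 hg hh hgh hhg ((hmap _).mpr XI_mem)
  have k2 : τ (S - XI c s I) ∈ orth (WL ω G) I' := by
    rw [hL.mem_orth_iff hω hI'.1 (D.lie_tw hτ hR.1)]
    intro y hy
    have h1 : τ.symm y ∈ I := by
      rw [← hmap, RingEquiv.apply_symm_apply]; exact hy
    have h2 := (hL.mem_orth_iff hω hI.1 hR.1).mp hR _ h1
    have h3 := congrArg τ h2
    rwa [map_mul, map_mul, RingEquiv.apply_symm_apply] at h3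
  have k3 : g * τ (S - XI c s I) * h ∈ orth (WL ω G) I' :=
    D.id_conj (orth_isId hL.br hI'.1) hg hh hgh hhg k2
  have k4 : XI c s I' - g * τ (XI c s I) * h = 0 := by
    apply hL.inf_orth hω hI'.1 (I'.sub_mem XI_mem k1)
    have h1 := (orth (WL ω G) I').sub_mem k3 hR'
    have e : g * τ (S - XI c s I) * h - (S - XI c s I') =
        XI c s I' - g * τ (XI c s I) * h := by
      rw [map_sub, mul_sub, sub_mul, hST]
      abel
    rwa [e] at h1
  have k5 : XI c s I' - (z : K) • 1 = g * τ (XI c s I - (z : K) • 1) * h := by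
    rw [Int.cast_smul_eq_zsmul, map_sub, map_zsmul, map_one, mul_sub, sub_mul, mul_smul_comm,
      smul_mul_assoc, mul_one, hgh, sub_eq_zero.mp k4]
  rw [k5, rk_conj hhg hgh, D.rk τ hτ]

end PR
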